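import Mathlib

set_option autoImplicit false

namespace Pool.Agent.LibHallCount

/-- The integrality behind the repulsion. -/
theorem dvd_disc (s n1 n2 x1 x2 y1 y2 : ℤ) (hs : s ≠ 0) (hco : IsCoprime s n1)
    (hn : s ∣ n2 - n1)
    (hPsi : 3 * (x1 * s ^ 2 - n1 ^ 2) ^ 2 - 4 * n1 * (n1 ^ 3 - 3 * x1 * s ^ 2 * n1 + 2 * y1 * s ^ 3) =
      3 * (x2 * s ^ 2 - n2 ^ 2) ^ 2 - 4 * n2 * (n2 ^ 3 - 3 * x2 * s ^ 2 * n2 + 2 * y2 * s ^ 3)) :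
    s ^ 6 ∣ 4 * (9 * ((x2 * s ^ 2 - n2 ^ 2) - (x1 * s ^ 2 - n1 ^ 2)) ^ 2 -
      16 * (n2 - n1) * ((n2 ^ 3 - 3 * x2 * s ^ 2 * n2 + 2 * y2 * s ^ 3) -
        (n1 ^ 3 - 3 * x1 * s ^ 2 * n1 + 2 * y1 * s ^ 3))) := by
  obtain ⟨h, hh⟩ := hn
  have hn2 : n2 = n1 + s * h := by linarith
  subst hn2
  set r := n1 with hr
  -- shifted data
  obtain ⟨du, hdu⟩ : ∃ du : ℤ, du = (x2 - h ^ 2) - x1 := ⟨_, rfl⟩
  obtain ⟨dF, hdF⟩ : ∃ dF : ℤ, dF = (h ^ 3 - 3 * x2 * h + 2 * y2) - 2 * y1 := ⟨_, rfl⟩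
  obtain ⟨dG, hdG⟩ : ∃ dG : ℤ, dG = (3 * (x2 - h ^ 2) ^ 2 - 4 * h * (h ^ 3 - 3 * x2 * h + 2 * y2)) -
    3 * x1 ^ 2 := ⟨_, rfl⟩
  have key : s * (s ^ 3 * dG - 4 * s ^ 2 * r * dF + 6 * s * r ^ 2 * du - 4 * r ^ 3 * h) = 0 := by
    rw [hdG, hdF, hdu]
    linear_combination -hPsi
  have key1 : s ^ 3 * dG - 4 * s ^ 2 * r * dF + 6 * s * r ^ 2 * du - 4 * r ^ 3 * h = 0 :=
    (mul_eq_zero.1 key).resolve_left hs
  have hco3 : IsCoprime s (r ^ 3) := hco.pow_right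
  have hco2 : IsCoprime s (r ^ 2) := hco.pow_right
  obtain ⟨e2, he2⟩ : s ∣ 4 * h := by
    apply hco3.dvd_of_dvd_mul_left
    exact ⟨s ^ 2 * dG - 4 * s * r * dF + 6 * r ^ 2 * du, by linear_combination -key1⟩
  have key2 : s ^ 2 * dG - 4 * s * r * dF + 6 * r ^ 2 * du - r ^ 3 * e2 = 0 := by
    apply (mul_eq_zero.1 (?_ : s * _ = 0)).resolve_left hs
    linear_combination key1 + r ^ 3 * he2
  obtain ⟨e1, he1⟩ : s ∣ 6 * du - r * e2 := by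
    apply hco2.dvd_of_dvd_mul_left
    exact ⟨-s * dG + 4 * r * dF, by linear_combination key2⟩
  have key3 : s * dG - 4 * r * dF + r ^ 2 * e1 = 0 := by
    apply (mul_eq_zero.1 (?_ : s * _ = 0)).resolve_left hs
    linear_combination key2 - r ^ 2 * he1
  obtain ⟨e0, he0⟩ : s ∣ -4 * dF + r * e1 := by
    apply hco.dvd_of_dvd_mul_left
    exact ⟨-dG, by linear_combination key3⟩
  refine ⟨e1 ^ 2 + 4 * e0 * e2, ?_⟩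
  have h6 : 6 * ((x2 * s ^ 2 - (r + s * h) ^ 2) - (x1 * s ^ 2 - r ^ 2)) =
      s ^ 2 * (s * e1 - 2 * r * e2) := by
    have : (x2 * s ^ 2 - (r + s * h) ^ 2) - (x1 * s ^ 2 - r ^ 2) = s ^ 2 * du - 2 * s * r * h := by
      rw [hdu]; ring
    rw [this]
    linear_combination s ^ 2 * he1 - 3 * s * r * he2
  have hP : 4 * (((r + s * h) ^ 3 - 3 * x2 * s ^ 2 * (r + s * h) + 2 * y2 * s ^ 3) -
        (r ^ 3 - 3 * x1 * s ^ 2 * r + 2 * y1 * s ^ 3)) =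
      - (s ^ 2 * (- r ^ 2 * e2 + s * r * e1 + s ^ 2 * e0)) := by
    have : ((r + s * h) ^ 3 - 3 * x2 * s ^ 2 * (r + s * h) + 2 * y2 * s ^ 3) -
        (r ^ 3 - 3 * x1 * s ^ 2 * r + 2 * y1 * s ^ 3) =
        3 * r ^ 2 * s * h - 3 * r * s ^ 2 * du + s ^ 3 * dF := by
      rw [hdu, hdF]; ring
    rw [this]
    linear_combination (3 * r ^ 2 * s) * he2 - 2 * r * s ^ 2 * he1 - s ^ 3 * he0
  have e4h : 4 * (r + s * h - r) = s ^ 2 * e2 := by linear_combination s * he2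
  have : 4 * (9 * ((x2 * s ^ 2 - (r + s * h) ^ 2) - (x1 * s ^ 2 - r ^ 2)) ^ 2 -
      16 * (r + s * h - r) * (((r + s * h) ^ 3 - 3 * x2 * s ^ 2 * (r + s * h) + 2 * y2 * s ^ 3) -
        (r ^ 3 - 3 * x1 * s ^ 2 * r + 2 * y1 * s ^ 3))) =
      (6 * ((x2 * s ^ 2 - (r + s * h) ^ 2) - (x1 * s ^ 2 - r ^ 2))) ^ 2 -
      4 * (4 * (r + s * h - r)) *
      (4 * (((r + s * h) ^ 3 - 3 * x2 * s ^ 2 * (r + s * h) + 2 * y2 * s ^ 3) -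
        (r ^ 3 - 3 * x1 * s ^ 2 * r + 2 * y1 * s ^ 3))) := by ring
  rw [this, h6, hP, e4h]
  ring

end Pool.Agent.LibHallCount
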