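import Pool.Agent.LibHallCount.Pair

set_option autoImplicit false

namespace Pool.Agent.LibHallCount

theorem exists_dat (c : ℝ) (hc : 1 ≤ c) (M x : ℕ) (hM2 : 2 ≤ M) (hM : 1000 * c ≤ (M : ℝ) ^ 3)
    (h1 : (M : ℝ) ^ 3 ≤ √(x : ℝ)) (h2 : √(x : ℝ) < 8 * (M : ℝ) ^ 3)
    (hy : ∃ y : ℤ, y ^ 2 ≠ (x : ℤ) ^ 3 ∧ |((y ^ 2 - (x : ℤ) ^ 3 : ℤ) : ℝ)| ≤ c * √(x : ℝ)) :
    ∃ (s : ℕ) (n y : ℤ), Dat c M s x n y := by
  obtain ⟨y0, hy0, hk0⟩ := hy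
  -- make y nonnegative
  obtain ⟨y, hypos, hyne, hk⟩ : ∃ y : ℤ, 0 ≤ y ∧ y ^ 2 ≠ (x : ℤ) ^ 3 ∧
      |((y ^ 2 - (x : ℤ) ^ 3 : ℤ) : ℝ)| ≤ c * √(x : ℝ) :=
    ⟨|y0|, abs_nonneg _, by rwa [sq_abs], by rwa [sq_abs]⟩
  obtain ⟨t, ht⟩ : ∃ t : ℝ, t = √(x : ℝ) := ⟨_, rfl⟩
  have htx : t ^ 2 = x := by rw [ht]; exact Real.sq_sqrt (Nat.cast_nonneg x)
  rw [← ht] at h1 h2 hk
  have hM1 : (2 : ℝ) ≤ M := by exact_mod_cast hM2
  have hM0 : (0 : ℝ) < M := by linarith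
  have hT0 : (0 : ℝ) < (M : ℝ) ^ 3 := by positivity
  have ht0 : 0 < t := by linarith
  have ht1000 : 1000 * c ≤ t := by linarith
  obtain ⟨q, hq1, hq2⟩ := Real.exists_rat_abs_sub_le_and_den_le t (by omega : 0 < M)
  have hqd : (0 : ℝ) < q.den := by exact_mod_cast q.den_pos
  have hqe : (q : ℝ) = q.num / q.den := by
    exact_mod_cast (Rat.num_div_den q).symm
  have hw' : |(q.den : ℝ) * t - q.num| = q.den * |t - q| := by
    rw [hqe, ← abs_of_pos hqd, ← abs_mul, abs_of_pos hqd]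
    congr 1
    field_simp
  have hw : |(q.den : ℝ) * t - q.num| * M ≤ 1 := by
    rw [hw']
    have h3 : (q.den : ℝ) * |t - q| ≤ 1 / (M + 1) := by
      calc (q.den : ℝ) * |t - q| ≤ q.den * (1 / ((M + 1) * q.den)) := by gcongr
        _ = 1 / (M + 1) := by field_simp
    calc (q.den : ℝ) * |t - q| * M ≤ 1 / (M + 1) * M := by gcongr
      _ ≤ 1 := by
        rw [one_div, inv_mul_le_iff₀ (by linarith)]
        linarith
  have hcop : IsCoprime (q.den : ℤ) q.num := by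
    have := q.reduced
    rw [Int.isCoprime_iff_gcd_eq_one]
    have h4 : Nat.gcd q.den q.num.natAbs = 1 := (Nat.Coprime.symm this)
    simpa [Int.gcd] using h4
  have hkap : |(y : ℝ) - t ^ 3| * ((M : ℝ) ^ 3) ^ 2 ≤ c := by
    have hypos' : (0 : ℝ) ≤ y := by exact_mod_cast hypos
    have e1 : |(y : ℝ) - t ^ 3| * (y + t ^ 3) = |((y ^ 2 - (x : ℤ) ^ 3 : ℤ) : ℝ)| := by
      have hpos : (0 : ℝ) ≤ y + t ^ 3 := by positivity
      calc |(y : ℝ) - t ^ 3| * (y + t ^ 3) = |(y : ℝ) - t ^ 3| * |(y : ℝ) + t ^ 3| := by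
            rw [abs_of_nonneg hpos]
        _ = |((y : ℝ) - t ^ 3) * ((y : ℝ) + t ^ 3)| := (abs_mul _ _).symm
        _ = _ := by
            congr 1
            push_cast
            rw [← htx]
            ring
    have e2 : |(y : ℝ) - t ^ 3| * t ^ 3 ≤ c * t := by
      have : |(y : ℝ) - t ^ 3| * t ^ 3 ≤ |(y : ℝ) - t ^ 3| * (y + t ^ 3) := by
        gcongr; linarith
      linarith
    have e3 : |(y : ℝ) - t ^ 3| * t ^ 2 ≤ c := by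
      have : |(y : ℝ) - t ^ 3| * t ^ 2 * t ≤ c * t := by
        calc |(y : ℝ) - t ^ 3| * t ^ 2 * t = |(y : ℝ) - t ^ 3| * t ^ 3 := by ring
          _ ≤ c * t := e2
      exact le_of_mul_le_mul_right this ht0
    calc |(y : ℝ) - t ^ 3| * ((M : ℝ) ^ 3) ^ 2 ≤ |(y : ℝ) - t ^ 3| * t ^ 2 := by gcongr
      _ ≤ c := e3
  refine ⟨q.den, q.num, y, ?_⟩
  refine ⟨q.den_pos, hq2, hcop, by rw [← ht]; exact hw, by rw [← ht]; exact hkap,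
    by rw [← ht]; exact h1, by rw [← ht]; exact h2, ?_⟩
  intro hP
  -- the denominator is one
  have hs1 : q.den = 1 := by
    have hd : (q.den : ℤ) ∣ q.num ^ 3 := by
      refine ⟨3 * x * q.den * q.num - 2 * y * q.den ^ 2, ?_⟩
      linear_combination hP
    have hu : IsUnit (q.den : ℤ) := by
      have h5 : IsCoprime (q.den : ℤ) (q.num ^ 3) := hcop.pow_right
      exact h5.isUnit_of_dvd' dvd_rfl hd
    have := Int.isUnit_iff.1 hu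
    omega
  rw [hs1] at hP hw
  push_cast at hP hw
  obtain ⟨n, hn⟩ : ∃ n : ℤ, n = q.num := ⟨_, rfl⟩
  rw [← hn] at hP hw
  have id : 4 * (y ^ 2 - (x : ℤ) ^ 3) = (n ^ 2 - x) ^ 2 * (n ^ 2 - 4 * x) := by
    have h6 : 2 * y = 3 * x * n - n ^ 3 := by linear_combination hP
    have : 4 * y ^ 2 = (3 * x * n - n ^ 3) ^ 2 := by rw [← h6]; ring
    linear_combination this
  have hne : n ^ 2 - (x : ℤ) ≠ 0 := by
    intro h0
    apply hyne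
    rw [h0] at id
    have : 4 * (y ^ 2 - (x : ℤ) ^ 3) = 0 := by rw [id]; ring
    linarith
  have hsq1 : 1 ≤ (n ^ 2 - (x : ℤ)) ^ 2 := by
    have : 0 < (n ^ 2 - (x : ℤ)) ^ 2 := by positivity
    omega
  have hsq1' : (1 : ℝ) ≤ ((n : ℝ) ^ 2 - x) ^ 2 := by exact_mod_cast hsq1
  have hw2 : |1 * t - (n : ℝ)| ≤ 1 := by
    have : |1 * t - (n : ℝ)| * 1 ≤ |1 * t - (n : ℝ)| * M := by gcongr; linarith
    linarith
  rw [one_mul] at hw2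
  have ht2 : (1000 : ℝ) ≤ t := by linarith
  obtain ⟨hw3, hw4⟩ := abs_le.1 hw2
  have hneg : (n : ℝ) ^ 2 - 4 * x ≤ - x := by
    rw [← htx]
    nlinarith
  have idr : (4 : ℝ) * |((y ^ 2 - (x : ℤ) ^ 3 : ℤ) : ℝ)| = ((n : ℝ) ^ 2 - x) ^ 2 * |(n : ℝ) ^ 2 - 4 * x| := by
    have h7 : ((4 * (y ^ 2 - (x : ℤ) ^ 3) : ℤ) : ℝ) = (((n ^ 2 - x) ^ 2 * (n ^ 2 - 4 * x) : ℤ) : ℝ) := by
      rw [id]
    have h8 : (4 : ℝ) * ((y ^ 2 - (x : ℤ) ^ 3 : ℤ) : ℝ) = ((n : ℝ) ^ 2 - x) ^ 2 * ((n : ℝ) ^ 2 - 4 * x) := by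
      have e9 : ((4 * (y ^ 2 - (x : ℤ) ^ 3) : ℤ) : ℝ) = 4 * ((y ^ 2 - (x : ℤ) ^ 3 : ℤ) : ℝ) := by
        push_cast; ring
      rw [← e9, h7]
      push_cast
      ring
    rw [← abs_of_pos (by norm_num : (0 : ℝ) < 4), ← abs_mul, abs_of_pos (by norm_num : (0 : ℝ) < 4), h8,
      abs_mul, abs_of_nonneg (by positivity : (0 : ℝ) ≤ ((n : ℝ) ^ 2 - x) ^ 2)]
  have hxpos : (0 : ℝ) < x := by rw [← htx]; positivity
  have habs : (x : ℝ) ≤ |(n : ℝ) ^ 2 - 4 * x| := by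
    rw [abs_of_neg (by linarith)]
    linarith
  have h10 : (x : ℝ) ≤ ((n : ℝ) ^ 2 - x) ^ 2 * |(n : ℝ) ^ 2 - 4 * x| := by
    calc (x : ℝ) = 1 * x := by ring
      _ ≤ ((n : ℝ) ^ 2 - x) ^ 2 * |(n : ℝ) ^ 2 - 4 * x| := by gcongr
  rw [← idr, ← htx] at h10
  nlinarith

end Pool.Agent.LibHallCount
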