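import Mathlib

set_option autoImplicit false

namespace Pool.Agent.LibHallCount

/-- Points with the same `Ψ` and with `w` in a given cell have their `t` in a short interval. -/
theorem range_real (s T c j δ t1 t2 w1 w2 k1 k2 : ℝ) (hs : 1 ≤ s) (hsT : s ^ 3 ≤ T) (hc : 1 ≤ c)
    (hj : 1 ≤ j) (hδ : δ * (400 * T) = s ^ 2) (hjδ : j * δ ≤ 1)
    (a1 : j * δ ≤ |w1|) (a1' : |w1| ≤ (j + 1) * δ) (a2' : |w2| ≤ (j + 1) * δ)
    (hw : |w2 - w1| ≤ δ) (ht2 : |t2| ≤ 8 * s * T) (hn1 : |t1 - w1| ≤ 9 * s * T)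
    (hn2 : |t2 - w2| ≤ 9 * s * T) (hk1 : |k1| * T ^ 2 ≤ c) (hk2 : |k2| * T ^ 2 ≤ c)
    (hQ : 4 * t1 * w1 ^ 3 - w1 ^ 4 - 8 * k1 * (t1 - w1) * s ^ 3 =
      4 * t2 * w2 ^ 3 - w2 ^ 4 - 8 * k2 * (t2 - w2) * s ^ 3) :
    |t2 - t1| ≤ 20000000000000 * c ^ 2 * (1 + T / (s ^ 3 * j ^ 2)) * (s * T / (4000 * c * (j + 1))) := by
  have hs0 : 0 < s := by linarith
  have hj0 : 0 < j := by linarith
  have hc0 : 0 < c := by linarith
  have hT0 : 0 < T := by nlinarith [pow_pos hs0 3]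
  have hδ0 : 0 < δ := by
    have : 0 < δ * (400 * T) := by rw [hδ]; positivity
    exact (pos_iff_pos_of_mul_pos this).2 (by positivity)
  obtain ⟨ω, hω⟩ : ∃ ω : ℝ, ω = (j + 1) * δ := ⟨_, rfl⟩
  rw [← hω] at a1' a2'
  have hω0 : 0 < ω := by rw [hω]; positivity
  have hω2 : ω ≤ 2 * (j * δ) := by rw [hω]; nlinarith
  -- step 1
  have e : 4 * w1 ^ 3 * (t2 - t1) = -(4 * t2 * ((w2 - w1) * (w2 ^ 2 + w2 * w1 + w1 ^ 2))) +
      (w2 ^ 4 - w1 ^ 4) + 8 * s ^ 3 * (k2 * (t2 - w2)) - 8 * s ^ 3 * (k1 * (t1 - w1)) := by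
    linear_combination -hQ
  have b1 : |4 * t2 * ((w2 - w1) * (w2 ^ 2 + w2 * w1 + w1 ^ 2))| ≤ 4 * (8 * s * T) * (δ * (3 * ω ^ 2)) := by
    have : |w2 ^ 2 + w2 * w1 + w1 ^ 2| ≤ 3 * ω ^ 2 := by
      calc |w2 ^ 2 + w2 * w1 + w1 ^ 2| ≤ |w2 ^ 2| + |w2 * w1| + |w1 ^ 2| :=
            (abs_add_le _ _).trans (by gcongr; exact abs_add_le _ _)
        _ = |w2| ^ 2 + |w2| * |w1| + |w1| ^ 2 := by rw [abs_pow, abs_pow, abs_mul]
        _ ≤ ω ^ 2 + ω * ω + ω ^ 2 := by gcongr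
        _ = 3 * ω ^ 2 := by ring
    rw [abs_mul, abs_mul, abs_mul, abs_of_pos (by norm_num : (0:ℝ) < 4)]
    gcongr
  have b2 : |w2 ^ 4 - w1 ^ 4| ≤ ω ^ 4 := by
    have h1 : w1 ^ 4 ≤ ω ^ 4 := by
      calc w1 ^ 4 = |w1| ^ 4 := by rw [← abs_pow, abs_of_nonneg (by positivity)]
        _ ≤ ω ^ 4 := by gcongr
    have h2 : w2 ^ 4 ≤ ω ^ 4 := by
      calc w2 ^ 4 = |w2| ^ 4 := by rw [← abs_pow, abs_of_nonneg (by positivity)]
        _ ≤ ω ^ 4 := by gcongr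
    have h3 : 0 ≤ w1 ^ 4 := by positivity
    have h4 : 0 ≤ w2 ^ 4 := by positivity
    rw [abs_le]
    constructor <;> linarith
  obtain ⟨κ, hκ⟩ : ∃ κ : ℝ, κ = c / T ^ 2 := ⟨_, rfl⟩
  have hκ0 : 0 ≤ κ := by rw [hκ]; positivity
  have hκT : κ * T ^ 2 = c := by rw [hκ]; field_simp
  have hk1' : |k1| ≤ κ := by rw [hκ, le_div_iff₀ (by positivity)]; exact hk1
  have hk2' : |k2| ≤ κ := by rw [hκ, le_div_iff₀ (by positivity)]; exact hk2
  have b3 : |8 * s ^ 3 * (k2 * (t2 - w2))| ≤ 8 * s ^ 3 * (κ * (9 * s * T)) := by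
    rw [abs_mul, abs_of_pos (by positivity : (0:ℝ) < 8 * s ^ 3), abs_mul]
    gcongr
  have b4 : |8 * s ^ 3 * (k1 * (t1 - w1))| ≤ 8 * s ^ 3 * (κ * (9 * s * T)) := by
    rw [abs_mul, abs_of_pos (by positivity : (0:ℝ) < 8 * s ^ 3), abs_mul]
    gcongr
  have main : 4 * (j * δ) ^ 3 * |t2 - t1| ≤
      96 * (s * T * δ * ω ^ 2) + ω ^ 4 + 144 * (κ * s ^ 4 * T) := by
    have h1 : 4 * (j * δ) ^ 3 * |t2 - t1| ≤ |4 * w1 ^ 3 * (t2 - t1)| := by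
      rw [abs_mul, abs_mul, abs_pow, abs_of_pos (by norm_num : (0:ℝ) < 4)]
      gcongr
    refine h1.trans ?_
    rw [e]
    calc |-(4 * t2 * ((w2 - w1) * (w2 ^ 2 + w2 * w1 + w1 ^ 2))) +
      (w2 ^ 4 - w1 ^ 4) + 8 * s ^ 3 * (k2 * (t2 - w2)) - 8 * s ^ 3 * (k1 * (t1 - w1))|
        ≤ |4 * t2 * ((w2 - w1) * (w2 ^ 2 + w2 * w1 + w1 ^ 2))| + |w2 ^ 4 - w1 ^ 4| +
          |8 * s ^ 3 * (k2 * (t2 - w2))| + |8 * s ^ 3 * (k1 * (t1 - w1))| := by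
          refine (abs_sub _ _).trans ?_
          gcongr
          refine (abs_add_le _ _).trans ?_
          gcongr
          refine (abs_add_le _ _).trans ?_
          rw [abs_neg]
      _ ≤ 4 * (8 * s * T) * (δ * (3 * ω ^ 2)) + ω ^ 4 + 8 * s ^ 3 * (κ * (9 * s * T)) +
          8 * s ^ 3 * (κ * (9 * s * T)) := by linarith
      _ = _ := by ring
  -- step 2
  obtain ⟨A, hA⟩ : ∃ A : ℝ, A = j ^ 2 * δ ^ 3 * (s * T) := ⟨_, rfl⟩
  have hA0 : 0 < A := by rw [hA]; positivity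
  have r1 : 96 * (s * T * δ * ω ^ 2) ≤ 384 * A := by
    have : ω ^ 2 ≤ (2 * (j * δ)) ^ 2 := by gcongr
    calc 96 * (s * T * δ * ω ^ 2) ≤ 96 * (s * T * δ * (2 * (j * δ)) ^ 2) := by gcongr
      _ = 384 * A := by rw [hA]; ring
  have r2 : ω ^ 4 ≤ 6400 * A := by
    have h1 : ω ^ 4 ≤ (2 * (j * δ)) ^ 4 := by gcongr
    have h2 : j * (j * δ) ≤ 400 * (s * T) := by
      have : j ≤ 400 * (s * T) := by
        have h3 : j * δ * (400 * T) = j * s ^ 2 := by rw [mul_assoc, hδ]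
        have h4 : j * s ^ 2 ≤ 400 * T := by
          rw [← h3]
          calc j * δ * (400 * T) ≤ 1 * (400 * T) := by gcongr
            _ = _ := by ring
        have h5 : j ≤ j * s ^ 2 := le_mul_of_one_le_right hj0.le (by nlinarith)
        have h6 : 400 * T ≤ 400 * (s * T) := by nlinarith
        linarith
      calc j * (j * δ) ≤ j * 1 := by gcongr
        _ ≤ _ := by linarith
    calc ω ^ 4 ≤ (2 * (j * δ)) ^ 4 := h1
      _ = 16 * (j ^ 2 * δ ^ 3) * (j * (j * δ)) := by ring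
      _ ≤ 16 * (j ^ 2 * δ ^ 3) * (400 * (s * T)) := by gcongr
      _ = 6400 * A := by rw [hA]; ring
  -- the last term
  have hB : A * (T / (s ^ 3 * j ^ 2)) * 64000000 = s ^ 4 / T := by
    have h1 : δ ^ 3 * (64000000 * T ^ 3) = s ^ 6 := by
      calc δ ^ 3 * (64000000 * T ^ 3) = (δ * (400 * T)) ^ 3 := by ring
        _ = s ^ 6 := by rw [hδ]; ring
    rw [hA]
    field_simp
    linear_combination h1
  have r3 : 144 * (κ * s ^ 4 * T) ≤ 10000000000 * c * (A * (T / (s ^ 3 * j ^ 2))) := by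
    have h1 : κ * s ^ 4 * T = c * (s ^ 4 / T) := by rw [hκ]; field_simp
    rw [h1, ← hB]
    have : 0 ≤ c * (A * (T / (s ^ 3 * j ^ 2))) := by positivity
    nlinarith
  have hD0 : 0 < 4 * (j * δ) ^ 3 := by positivity
  have fin : 96 * (s * T * δ * ω ^ 2) + ω ^ 4 + 144 * (κ * s ^ 4 * T) ≤
      4 * (j * δ) ^ 3 * (20000000000000 * c ^ 2 * (1 + T / (s ^ 3 * j ^ 2)) *
        (s * T / (4000 * c * (j + 1)))) := by
    have h1 : 4 * (j * δ) ^ 3 * (20000000000000 * c ^ 2 * (1 + T / (s ^ 3 * j ^ 2)) *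
        (s * T / (4000 * c * (j + 1)))) =
        20000000000 * c * (j / (j + 1)) * (A + A * (T / (s ^ 3 * j ^ 2))) := by
      rw [hA]
      field_simp
      ring
    rw [h1]
    have h2 : 1 / 2 ≤ j / (j + 1) := by
      rw [div_le_div_iff₀ (by norm_num) (by linarith)]
      linarith
    have h3 : 0 ≤ A + A * (T / (s ^ 3 * j ^ 2)) := by positivity
    calc 96 * (s * T * δ * ω ^ 2) + ω ^ 4 + 144 * (κ * s ^ 4 * T)
        ≤ 10000000000 * c * A + 10000000000 * c * (A * (T / (s ^ 3 * j ^ 2))) := by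
          have : 6784 * A ≤ 10000000000 * c * A := by nlinarith
          linarith
      _ = 20000000000 * c * (1 / 2) * (A + A * (T / (s ^ 3 * j ^ 2))) := by ring
      _ ≤ 20000000000 * c * (j / (j + 1)) * (A + A * (T / (s ^ 3 * j ^ 2))) := by gcongr
  exact le_of_mul_le_mul_left (main.trans fin) hD0

end Pool.Agent.LibHallCount
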