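import Pool.Agent.LibHallCount.Pair
import Pool.Agent.LibHallCount.Range

set_option autoImplicit false

namespace Pool.Agent.LibHallCount

open Finset

/-- A finite set without three points in a window of length `L`. -/
theorem pack (F : Finset ℕ) (τ : ℕ → ℝ) (a ℓ L : ℝ) (hL : 0 < L) (hℓ : 0 ≤ ℓ)
    (h1 : ∀ x ∈ F, a ≤ τ x) (h2 : ∀ x ∈ F, τ x ≤ a + ℓ)
    (h3 : ∀ x1 ∈ F, ∀ x2 ∈ F, ∀ x3 ∈ F, x1 ≠ x2 → x1 ≠ x3 → x2 ≠ x3 → |τ x2 - τ x1| ≤ L →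
      |τ x3 - τ x1| ≤ L → |τ x3 - τ x2| ≤ L → False) :
    (F.card : ℝ) ≤ 2 * (ℓ / L + 1) := by
  classical
  have hmaps : ∀ x ∈ F, ⌊(τ x - a) / L⌋₊ ∈ Finset.range (⌊ℓ / L⌋₊ + 1) := by
    intro x hx
    rw [Finset.mem_range, Nat.lt_succ_iff]
    apply Nat.floor_mono
    gcongr
    linarith [h2 x hx]
  have hfib : ∀ b ∈ Finset.range (⌊ℓ / L⌋₊ + 1), (F.filter (fun x => ⌊(τ x - a) / L⌋₊ = b)).card ≤ 2 := by
    intro b _
    by_contra hcon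
    push Not at hcon
    obtain ⟨x1, hx1, x2, hx2, x3, hx3, h12, h13, h23⟩ := Finset.two_lt_card.1 hcon
    rw [Finset.mem_filter] at hx1 hx2 hx3
    have key : ∀ x ∈ F, ∀ x' ∈ F, ⌊(τ x - a) / L⌋₊ = b → ⌊(τ x' - a) / L⌋₊ = b → |τ x' - τ x| ≤ L := by
      intro x hx x' hx' e1 e2
      have p1 : 0 ≤ (τ x - a) / L := div_nonneg (by linarith [h1 x hx]) hL.le
      have p2 : 0 ≤ (τ x' - a) / L := div_nonneg (by linarith [h1 x' hx']) hL.le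
      have q1 := (Nat.floor_eq_iff p1).1 e1
      have q2 := (Nat.floor_eq_iff p2).1 e2
      have u1 : (b : ℝ) * L ≤ τ x - a := (le_div_iff₀ hL).1 q1.1
      have u2 : (b : ℝ) * L ≤ τ x' - a := (le_div_iff₀ hL).1 q2.1
      have v1 : τ x - a < (b + 1) * L := (div_lt_iff₀ hL).1 q1.2
      have v2 : τ x' - a < (b + 1) * L := (div_lt_iff₀ hL).1 q2.2
      rw [abs_le]
      constructor <;> linarith
    exact h3 x1 hx1.1 x2 hx2.1 x3 hx3.1 h12 h13 h23 (key x1 hx1.1 x2 hx2.1 hx1.2 hx2.2)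
      (key x1 hx1.1 x3 hx3.1 hx1.2 hx3.2) (key x2 hx2.1 x3 hx3.1 hx2.2 hx3.2)
  have hcard := Finset.card_le_mul_card_image_of_maps_to hmaps 2 hfib
  rw [Finset.card_range] at hcard
  have : (F.card : ℝ) ≤ 2 * ((⌊ℓ / L⌋₊ : ℝ) + 1) := by exact_mod_cast hcard
  have hf : (⌊ℓ / L⌋₊ : ℝ) ≤ ℓ / L := Nat.floor_le (by positivity)
  linarith

theorem cQ_real (s x : ℕ) (n y : ℤ) :
    (cQ s x n y : ℝ) = 4 * (s * √(x : ℝ)) * (s * √(x : ℝ) - n) ^ 3 - (s * √(x : ℝ) - n) ^ 4 -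
      8 * (y - √(x : ℝ) ^ 3) * (s * √(x : ℝ) - (s * √(x : ℝ) - n)) * s ^ 3 := by
  unfold cQ
  push_cast
  rw [cN_real, cP_real]
  ring

/-- The set of points in one cell. -/
structure Fib (c : ℝ) (M s j : ℕ) (F : Finset ℕ) (n y : ℕ → ℤ) : Prop where
  dat : ∀ x ∈ F, Dat c M s x (n x) (y x)
  dvd : ∀ x ∈ F, ∀ x' ∈ F, (s : ℤ) ∣ n x' - n x
  hQ : ∀ x ∈ F, ∀ x' ∈ F, cQ s x (n x) (y x) = cQ s x' (n x') (y x')
  hj : ∀ x ∈ F, (j : ℝ) * ((s : ℝ) ^ 2 / (400 * (M : ℝ) ^ 3)) ≤ |(s : ℝ) * √(x : ℝ) - n x|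
  hj' : ∀ x ∈ F, |(s : ℝ) * √(x : ℝ) - n x| ≤ ((j : ℝ) + 1) * ((s : ℝ) ^ 2 / (400 * (M : ℝ) ^ 3))
  sg : (∀ x ∈ F, 0 ≤ (s : ℝ) * √(x : ℝ) - n x) ∨ (∀ x ∈ F, (s : ℝ) * √(x : ℝ) - n x ≤ 0)

theorem fib_near {c : ℝ} {M s j : ℕ} {F : Finset ℕ} {n y : ℕ → ℤ} (h : Fib c M s j F n y)
    {x x' : ℕ} (hx : x ∈ F) (hx' : x' ∈ F)
    (hτ : |(s : ℝ) * √(x' : ℝ) - s * √(x : ℝ)| ≤ s * (M : ℝ) ^ 3 / (4000 * c * (j + 1))) :
    Near c M s j x x' (n x) (n x') (y x) (y x') :=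
  { dvd := h.dvd x hx x' hx'
    hQ := h.hQ x hx x' hx'
    hj1 := h.hj x hx
    hj1' := h.hj' x hx
    hj2 := h.hj x' hx'
    hj2' := h.hj' x' hx'
    hsg := by
      rcases h.sg with hs | hs
      · exact Or.inl ⟨hs x hx, hs x' hx'⟩
      · exact Or.inr ⟨hs x hx, hs x' hx'⟩
    hτ := hτ }

theorem fib_three {c : ℝ} (hc : 1 ≤ c) {M s j : ℕ} {F : Finset ℕ} {n y : ℕ → ℤ}
    (h : Fib c M s j F n y) (hM2 : 2 ≤ M) (hM : 1000 * c ≤ (M : ℝ) ^ 3) :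
    ∀ x1 ∈ F, ∀ x2 ∈ F, ∀ x3 ∈ F, x1 ≠ x2 → x1 ≠ x3 → x2 ≠ x3 →
      |(s : ℝ) * √(x2 : ℝ) - s * √(x1 : ℝ)| ≤ s * (M : ℝ) ^ 3 / (4000 * c * (j + 1)) →
      |(s : ℝ) * √(x3 : ℝ) - s * √(x1 : ℝ)| ≤ s * (M : ℝ) ^ 3 / (4000 * c * (j + 1)) →
      |(s : ℝ) * √(x3 : ℝ) - s * √(x2 : ℝ)| ≤ s * (M : ℝ) ^ 3 / (4000 * c * (j + 1)) → False := by
  intro x1 h1 x2 h2 x3 h3 n12 n13 n23 t12 t13 t23
  exact three_near c hc M s x1 x2 x3 j (n x1) (n x2) (n x3) (y x1) (y x2) (y x3) hM2 hM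
    (h.dat x1 h1) (h.dat x2 h2) (h.dat x3 h3) (fib_near h h1 h2 t12) (fib_near h h1 h3 t13)
    (fib_near h h2 h3 t23) n12 n13 n23

/-- The weight of a cell. -/
noncomputable def bw (a : ℝ) (j : ℕ) : ℝ := if (j : ℝ) ≤ a then (j : ℝ) + 1 else a ^ 3 / (j : ℝ) ^ 2

/-- The bound for one cell. -/
theorem fib_bound {c : ℝ} (hc : 1 ≤ c) {M s j : ℕ} {F : Finset ℕ} {n y : ℕ → ℤ}
    (h : Fib c M s j F n y) (hM2 : 2 ≤ M) (hM : 1000 * c ≤ (M : ℝ) ^ 3) :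
    (F.card : ℝ) ≤ 100000000000000 * c ^ 2 * (1 + bw ((M : ℝ) / s) j) := by
  rcases F.eq_empty_or_nonempty with hF | hF
  · subst hF
    have : 0 ≤ bw ((M : ℝ) / s) j := by
      unfold bw
      split_ifs <;> positivity
    rw [Finset.card_empty, Nat.cast_zero]
    positivity
  obtain ⟨x0, hx0⟩ := hF
  have d0 := h.dat x0 hx0
  have hs1 : (1 : ℝ) ≤ s := by exact_mod_cast d0.s1
  have hs0 : (0 : ℝ) < s := by linarith
  have hM1 : (2 : ℝ) ≤ M := by exact_mod_cast hM2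
  have hM0 : (0 : ℝ) < M := by linarith
  have hsM : (s : ℝ) ≤ M := by exact_mod_cast d0.sM
  have hc0 : 0 < c := by linarith
  have hT0 : (0 : ℝ) < (M : ℝ) ^ 3 := by positivity
  have hsT : (s : ℝ) ^ 3 ≤ (M : ℝ) ^ 3 := by gcongr
  obtain ⟨L, hL⟩ : ∃ L : ℝ, L = s * (M : ℝ) ^ 3 / (4000 * c * (j + 1)) := ⟨_, rfl⟩
  have hL0 : 0 < L := by rw [hL]; positivity
  have three := fib_three hc h hM2 hM
  rw [← hL] at three
  unfold bw
  split_ifs with hja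
  · have hp := pack F (fun x => (s : ℝ) * √(x : ℝ)) (s * (M : ℝ) ^ 3) (7 * (s * (M : ℝ) ^ 3)) L hL0
      (by positivity) (fun x hx => by
        have := (h.dat x hx).hT1
        show (s : ℝ) * (M : ℝ) ^ 3 ≤ s * √(x : ℝ)
        gcongr) (fun x hx => by
        have := (h.dat x hx).hT2
        show (s : ℝ) * √(x : ℝ) ≤ s * (M : ℝ) ^ 3 + 7 * (s * (M : ℝ) ^ 3)
        nlinarith) three
    have e : 7 * (s * (M : ℝ) ^ 3) / L = 28000 * c * (j + 1) := by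
      rw [hL]; field_simp; norm_num
    rw [e] at hp
    have hj0 : (0 : ℝ) ≤ j := Nat.cast_nonneg j
    have hcc : c ≤ c ^ 2 := by nlinarith
    nlinarith
  · push Not at hja
    have hj1 : (1 : ℝ) ≤ j := by
      have : (1 : ℝ) ≤ M / s := by rw [le_div_iff₀ hs0]; linarith
      linarith
    have hj0 : (0 : ℝ) < j := by linarith
    obtain ⟨δ, hδ⟩ : ∃ δ : ℝ, δ = (s : ℝ) ^ 2 / (400 * (M : ℝ) ^ 3) := ⟨_, rfl⟩
    have hδ0 : 0 < δ := by rw [hδ]; positivity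
    have hδe : δ * (400 * (M : ℝ) ^ 3) = (s : ℝ) ^ 2 := by rw [hδ]; field_simp
    have hwle : ∀ x ∈ F, |(s : ℝ) * √(x : ℝ) - n x| ≤ 1 := by
      intro x hx
      have := (h.dat x hx).hw
      have h2 : |(s : ℝ) * √(x : ℝ) - n x| * 1 ≤ |(s : ℝ) * √(x : ℝ) - n x| * M := by
        gcongr; linarith
      linarith
    have hjδ : (j : ℝ) * δ ≤ 1 := by
      rw [hδ]
      exact (h.hj x0 hx0).trans (hwle x0 hx0)
    obtain ⟨B, hB⟩ : ∃ B : ℝ, B = 20000000000000 * c ^ 2 * (1 + (M : ℝ) ^ 3 / ((s : ℝ) ^ 3 * (j : ℝ) ^ 2)) :=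
      ⟨_, rfl⟩
    have hB0 : 0 ≤ B := by rw [hB]; positivity
    have hrange : ∀ x ∈ F, |(s : ℝ) * √(x : ℝ) - s * √(x0 : ℝ)| ≤ B * L := by
      intro x hx
      have dx := h.dat x hx
      have hT2 : ∀ x ∈ F, |(s : ℝ) * √(x : ℝ)| ≤ 8 * s * (M : ℝ) ^ 3 := by
        intro x hx
        rw [abs_of_nonneg (by positivity)]
        have := (h.dat x hx).hT2
        nlinarith
      have hn : ∀ x ∈ F, |(s : ℝ) * √(x : ℝ) - (s * √(x : ℝ) - n x)| ≤ 9 * s * (M : ℝ) ^ 3 := by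
        intro x hx
        refine (abs_sub _ _).trans ?_
        have h1 := hT2 x hx
        have h2 := hwle x hx
        have h3 : 1 ≤ (s : ℝ) * (M : ℝ) ^ 3 := by
          have : (1 : ℝ) ≤ (M : ℝ) ^ 3 := by linarith
          nlinarith
        linarith
      have hww : |((s : ℝ) * √(x : ℝ) - n x) - ((s : ℝ) * √(x0 : ℝ) - n x0)| ≤ δ := by
        have a1 := h.hj x hx
        have a2 := h.hj' x hx
        have a3 := h.hj x0 hx0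
        have a4 := h.hj' x0 hx0
        rw [← hδ] at a1 a2 a3 a4
        rw [abs_le]
        rcases h.sg with hs | hs
        · rw [abs_of_nonneg (hs x hx)] at a1 a2
          rw [abs_of_nonneg (hs x0 hx0)] at a3 a4
          constructor <;> nlinarith
        · rw [abs_of_nonpos (hs x hx)] at a1 a2
          rw [abs_of_nonpos (hs x0 hx0)] at a3 a4
          constructor <;> nlinarith
      have hQ := h.hQ x0 hx0 x hx
      have hQ' : (cQ s x0 (n x0) (y x0) : ℝ) = cQ s x (n x) (y x) := by exact_mod_cast hQ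
      rw [cQ_real, cQ_real] at hQ'
      rw [hL, hB]
      have a3 := h.hj x0 hx0
      have a4 := h.hj' x0 hx0
      have a2 := h.hj' x hx
      rw [← hδ] at a2 a3 a4
      exact range_real s ((M : ℝ) ^ 3) c j δ (s * √(x0 : ℝ)) (s * √(x : ℝ)) (s * √(x0 : ℝ) - n x0)
        (s * √(x : ℝ) - n x) (y x0 - √(x0 : ℝ) ^ 3) (y x - √(x : ℝ) ^ 3) hs1 hsT hc hj1 hδe hjδ
        a3 a4 a2 hww (hT2 x hx) (hn x0 hx0) (hn x hx) d0.hk dx.hk hQ'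
    have hp := pack F (fun x => (s : ℝ) * √(x : ℝ)) (s * √(x0 : ℝ) - B * L) (2 * (B * L)) L hL0
      (by positivity) (fun x hx => by
        have := (abs_le.1 (hrange x hx)).1
        show (s : ℝ) * √(x0 : ℝ) - B * L ≤ s * √(x : ℝ)
        linarith) (fun x hx => by
        have := (abs_le.1 (hrange x hx)).2
        show (s : ℝ) * √(x : ℝ) ≤ s * √(x0 : ℝ) - B * L + 2 * (B * L)
        linarith) three
    have e : 2 * (B * L) / L = 2 * B := by field_simp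
    rw [e] at hp
    have e2 : ((M : ℝ) / s) ^ 3 / (j : ℝ) ^ 2 = (M : ℝ) ^ 3 / ((s : ℝ) ^ 3 * (j : ℝ) ^ 2) := by
      field_simp
    rw [e2]
    have h3 : 0 ≤ (M : ℝ) ^ 3 / ((s : ℝ) ^ 3 * (j : ℝ) ^ 2) := by positivity
    have hcc : 1 ≤ c ^ 2 := by nlinarith
    have h4 : 1 ≤ c ^ 2 * (1 + (M : ℝ) ^ 3 / ((s : ℝ) ^ 3 * (j : ℝ) ^ 2)) := by nlinarith
    rw [hB] at hp
    linarith

end Pool.Agent.LibHallCount
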