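import Mathlib

set_option autoImplicit false

namespace Pool.Agent.LibHallCount

/-- Three points with pairwise vanishing discriminant on the quadric `3 N ^ 2 - 4 n P = Psi`. -/
theorem three_pts (n N P a1 b1 c1 a2 b2 c2 Psi : ℤ) (hn : n ≠ 0) (hP : P ≠ 0)
    (e0 : 3 * N ^ 2 - 4 * n * P = Psi)
    (e1 : 3 * (N + b1) ^ 2 - 4 * (n + a1) * (P + c1) = Psi)
    (e2 : 3 * (N + b2) ^ 2 - 4 * (n + a2) * (P + c2) = Psi)
    (h1 : 9 * b1 ^ 2 - 16 * a1 * c1 = 0) (h2 : 9 * b2 ^ 2 - 16 * a2 * c2 = 0)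
    (h3 : 9 * (b2 - b1) ^ 2 - 16 * (a2 - a1) * (c2 - c1) = 0)
    (hv : ¬ (a1 = 0 ∧ b1 = 0 ∧ c1 = 0)) (hw : ¬ (a2 = 0 ∧ b2 = 0 ∧ c2 = 0))
    (hvw : ¬ (a1 = a2 ∧ b1 = b2 ∧ c1 = c2)) : False := by
  have h12 : 9 * b1 * b2 = 8 * (a1 * c2 + a2 * c1) := by
    have : 2 * (9 * b1 * b2) = 2 * (8 * (a1 * c2 + a2 * c1)) := by
      linear_combination h1 + h2 - h3
    linarith
  have hab : a1 * b2 - a2 * b1 = 0 := by
    have : 9 * (a1 * b2 - a2 * b1) ^ 2 = 0 := by
      linear_combination a1 ^ 2 * h2 + a2 ^ 2 * h1 - 2 * a1 * a2 * h12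
    have h9 : (a1 * b2 - a2 * b1) ^ 2 = 0 := by linarith
    exact pow_eq_zero_iff (two_ne_zero) |>.1 h9
  have hbc : b1 * c2 - b2 * c1 = 0 := by
    have : 9 * (b1 * c2 - b2 * c1) ^ 2 = 0 := by
      linear_combination c2 ^ 2 * h1 + c1 ^ 2 * h2 - 2 * c1 * c2 * h12
    have h9 : (b1 * c2 - b2 * c1) ^ 2 = 0 := by linarith
    exact pow_eq_zero_iff (two_ne_zero) |>.1 h9
  have hac : a1 * c2 - a2 * c1 = 0 := by
    have : 64 * (a1 * c2 - a2 * c1) ^ 2 = 0 := by
      linear_combination (-(9 * b1 * b2) - 8 * (a1 * c2 + a2 * c1)) * h12 + 9 * b2 ^ 2 * h1 +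
        16 * a1 * c1 * h2
    have h9 : (a1 * c2 - a2 * c1) ^ 2 = 0 := by linarith
    exact pow_eq_zero_iff (two_ne_zero) |>.1 h9
  -- the linear form
  have l1 : 4 * (6 * N * b1 - 4 * n * c1 - 4 * P * a1) = -3 * b1 ^ 2 := by
    linear_combination 4 * e1 - 4 * e0 - h1
  have l2 : 4 * (6 * N * b2 - 4 * n * c2 - 4 * P * a2) = -3 * b2 ^ 2 := by
    linear_combination 4 * e2 - 4 * e0 - h2
  have ma : b2 ^ 2 * a1 = b1 ^ 2 * a2 := by
    have : 3 * (b2 ^ 2 * a1) = 3 * (b1 ^ 2 * a2) := by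
      linear_combination a1 * l2 - a2 * l1 - 24 * N * hab + 16 * n * hac
    linarith
  have mc : b2 ^ 2 * c1 = b1 ^ 2 * c2 := by
    have : 3 * (b2 ^ 2 * c1) = 3 * (b1 ^ 2 * c2) := by
      linear_combination c1 * l2 - c2 * l1 + 24 * N * hbc - 16 * P * hac
    linarith
  have mb : b1 * b2 * (b1 - b2) = 0 := by
    have : 3 * (b1 * b2 * (b1 - b2)) = 0 := by
      linear_combination b2 * l1 - b1 * l2 - 16 * n * hbc + 16 * P * hab
    linarith
  rcases mul_eq_zero.1 mb with hb | hb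
  · rcases mul_eq_zero.1 hb with hb | hb
    · subst hb
      by_cases hb2 : b2 = 0
      · subst hb2
        have hac1 : a1 * c1 = 0 := by linarith
        rcases mul_eq_zero.1 hac1 with h | h
        · subst h
          have : n * c1 = 0 := by linarith
          exact hv ⟨rfl, rfl, (mul_eq_zero.1 this).resolve_left hn⟩
        · subst h
          have : P * a1 = 0 := by linarith
          exact hv ⟨(mul_eq_zero.1 this).resolve_left hP, rfl, rfl⟩
      · apply hv
        have hb2' : b2 ^ 2 ≠ 0 := pow_ne_zero 2 hb2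
        refine ⟨?_, rfl, ?_⟩
        · have : b2 ^ 2 * a1 = 0 := by linarith
          exact (mul_eq_zero.1 this).resolve_left hb2'
        · have : b2 ^ 2 * c1 = 0 := by linarith
          exact (mul_eq_zero.1 this).resolve_left hb2'
    · subst hb
      by_cases hb1 : b1 = 0
      · subst hb1
        have hac1 : a1 * c1 = 0 := by linarith
        rcases mul_eq_zero.1 hac1 with h | h
        · subst h
          have : n * c1 = 0 := by linarith
          exact hv ⟨rfl, rfl, (mul_eq_zero.1 this).resolve_left hn⟩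
        · subst h
          have : P * a1 = 0 := by linarith
          exact hv ⟨(mul_eq_zero.1 this).resolve_left hP, rfl, rfl⟩
      · apply hw
        have hb1' : b1 ^ 2 ≠ 0 := pow_ne_zero 2 hb1
        refine ⟨?_, rfl, ?_⟩
        · have : b1 ^ 2 * a2 = 0 := by linarith
          exact (mul_eq_zero.1 this).resolve_left hb1'
        · have : b1 ^ 2 * c2 = 0 := by linarith
          exact (mul_eq_zero.1 this).resolve_left hb1'
  · have hb' : b1 = b2 := by linarith
    subst hb'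
    by_cases hb1 : b1 = 0
    · subst hb1
      have hac1 : a1 * c1 = 0 := by linarith
      rcases mul_eq_zero.1 hac1 with h | h
      · subst h
        have : n * c1 = 0 := by linarith
        exact hv ⟨rfl, rfl, (mul_eq_zero.1 this).resolve_left hn⟩
      · subst h
        have : P * a1 = 0 := by linarith
        exact hv ⟨(mul_eq_zero.1 this).resolve_left hP, rfl, rfl⟩
    · have hb1' : b1 ^ 2 ≠ 0 := pow_ne_zero 2 hb1
      exact hvw ⟨mul_left_cancel₀ hb1' ma, rfl, mul_left_cancel₀ hb1' mc⟩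

end Pool.Agent.LibHallCount
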