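import Mathlib

set_option autoImplicit false

namespace Pool.Agent.LibHallCount

/-- Bound for the difference of the `N`-coordinates. -/
theorem win_N (s T ω δ L t1 t2 w1 w2 : ℝ) (hs : 1 ≤ s) (hsT : s ^ 3 ≤ T) (hT : 1000 ≤ T)
    (hδ : δ * (400 * T) = s ^ 2) (hω2 : ω ≤ 2) (hω0 : 0 ≤ ω) (hL0 : 0 ≤ L)
    (hP : ω * L ≤ s ^ 3 / 1600000)
    (ht2 : |t2| ≤ 8 * s * T) (hw1 : |w1| ≤ ω) (hw2 : |w2| ≤ ω)
    (hw : |w2 - w1| ≤ δ) (ht : |t2 - t1| ≤ L) :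
    |(2 * t2 * w2 - w2 ^ 2) - (2 * t1 * w1 - w1 ^ 2)| ≤ s ^ 3 / 19 := by
  have hs0 : 0 < s := by linarith
  have hT0 : 0 < T := by linarith
  have hδ0 : 0 ≤ δ := le_trans (abs_nonneg _) hw
  have e : (2 * t2 * w2 - w2 ^ 2) - (2 * t1 * w1 - w1 ^ 2) =
      2 * t2 * (w2 - w1) + 2 * w1 * (t2 - t1) - (w2 - w1) * (w2 + w1) := by ring
  have b1 : |2 * t2 * (w2 - w1)| ≤ 2 * (8 * s * T) * δ := by
    rw [abs_mul, abs_mul, abs_two]
    gcongr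
  have b2 : |2 * w1 * (t2 - t1)| ≤ 2 * ω * L := by
    rw [abs_mul, abs_mul, abs_two]
    gcongr
  have b3 : |(w2 - w1) * (w2 + w1)| ≤ δ * (ω + ω) := by
    rw [abs_mul]
    have : |w2 + w1| ≤ ω + ω := (abs_add_le _ _).trans (by linarith)
    gcongr
  have hsq : 2 * (8 * s * T) * δ = s ^ 3 / 25 := by
    have : s * T * δ * 400 = s ^ 3 := by linear_combination s * hδ
    linarith
  have hδ1 : δ ≤ s ^ 2 / 400000 := by
    have : δ * 400000 ≤ δ * (400 * T) := by gcongr; linarith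
    linarith
  have hs23 : s ^ 2 ≤ s ^ 3 := by nlinarith [sq_nonneg s]
  have hs30 : 0 ≤ s ^ 3 := by positivity
  have b3' : δ * (ω + ω) ≤ 4 * (s ^ 3 / 400000) := by
    have : δ * (ω + ω) ≤ δ * 4 := by gcongr; linarith
    linarith
  rw [e]
  calc |2 * t2 * (w2 - w1) + 2 * w1 * (t2 - t1) - (w2 - w1) * (w2 + w1)|
      ≤ |2 * t2 * (w2 - w1)| + |2 * w1 * (t2 - t1)| + |(w2 - w1) * (w2 + w1)| := by
        exact (abs_sub _ _).trans (by gcongr; exact abs_add_le _ _)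
    _ ≤ s ^ 3 / 25 + 2 * (s ^ 3 / 1600000) + 4 * (s ^ 3 / 400000) := by
        have : 2 * ω * L = 2 * (ω * L) := by ring
        linarith
    _ ≤ s ^ 3 / 19 := by linarith

/-- Bound for the product of the differences of the two other coordinates. -/
theorem win_P (s T c ω δ L t1 t2 w1 w2 k1 k2 : ℝ) (hs : 1 ≤ s) (hsT : s ^ 3 ≤ T) (hc : 1 ≤ c)
    (hT : 1000 * c ≤ T)
    (hδ : δ * (400 * T) = s ^ 2) (hω2 : ω ≤ 2) (hω0 : 0 ≤ ω) (hL0 : 0 ≤ L)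
    (hP : ω * L ≤ s ^ 3 / 1600000) (hL : L * (4000 * c) ≤ s * T)
    (ht2 : |t2| ≤ 8 * s * T) (hw1 : |w1| ≤ ω) (hw2 : |w2| ≤ ω)
    (hw : |w2 - w1| ≤ δ) (ht : |t2 - t1| ≤ L)
    (hk1 : |k1| * T ^ 2 ≤ c) (hk2 : |k2| * T ^ 2 ≤ c) :
    |((t2 - w2) - (t1 - w1)) * ((3 * t2 * w2 ^ 2 - w2 ^ 3 + 2 * k2 * s ^ 3) -
      (3 * t1 * w1 ^ 2 - w1 ^ 3 + 2 * k1 * s ^ 3))| ≤ s ^ 6 / 500 := by
  have hs0 : 0 < s := by linarith
  have hT0 : 0 < T := by linarith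
  have hδ0 : 0 ≤ δ := le_trans (abs_nonneg _) hw
  have hn : |(t2 - w2) - (t1 - w1)| ≤ L + δ := by
    have : (t2 - w2) - (t1 - w1) = (t2 - t1) - (w2 - w1) := by ring
    rw [this]
    exact (abs_sub _ _).trans (by linarith)
  have e : (3 * t2 * w2 ^ 2 - w2 ^ 3 + 2 * k2 * s ^ 3) - (3 * t1 * w1 ^ 2 - w1 ^ 3 + 2 * k1 * s ^ 3) =
      3 * t2 * (w2 - w1) * (w2 + w1) + 3 * w1 ^ 2 * (t2 - t1) -
        (w2 - w1) * (w2 ^ 2 + w2 * w1 + w1 ^ 2) + 2 * s ^ 3 * (k2 - k1) := by ring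
  have hww : |w2 + w1| ≤ 2 * ω := (abs_add_le _ _).trans (by linarith)
  have b1 : |3 * t2 * (w2 - w1) * (w2 + w1)| ≤ 3 * (8 * s * T) * δ * (2 * ω) := by
    rw [abs_mul, abs_mul, abs_mul, abs_of_pos (by norm_num : (0:ℝ) < 3)]
    gcongr
  have b2 : |3 * w1 ^ 2 * (t2 - t1)| ≤ 3 * ω ^ 2 * L := by
    rw [abs_mul, abs_mul, abs_of_pos (by norm_num : (0:ℝ) < 3), abs_pow]
    gcongr
  have b3 : |(w2 - w1) * (w2 ^ 2 + w2 * w1 + w1 ^ 2)| ≤ δ * (3 * ω ^ 2) := by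
    rw [abs_mul]
    have : |w2 ^ 2 + w2 * w1 + w1 ^ 2| ≤ 3 * ω ^ 2 := by
      calc |w2 ^ 2 + w2 * w1 + w1 ^ 2| ≤ |w2 ^ 2| + |w2 * w1| + |w1 ^ 2| :=
            (abs_add_le _ _).trans (by gcongr; exact abs_add_le _ _)
        _ = |w2| ^ 2 + |w2| * |w1| + |w1| ^ 2 := by rw [abs_pow, abs_pow, abs_mul]
        _ ≤ ω ^ 2 + ω * ω + ω ^ 2 := by gcongr
        _ = 3 * ω ^ 2 := by ring
    gcongr
  obtain ⟨κ, hκ⟩ : ∃ κ : ℝ, κ = c / T ^ 2 := ⟨_, rfl⟩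
  have hκ0 : 0 ≤ κ := by rw [hκ]; positivity
  have hk1' : |k1| ≤ κ := by rw [hκ, le_div_iff₀ (by positivity)]; exact hk1
  have hk2' : |k2| ≤ κ := by rw [hκ, le_div_iff₀ (by positivity)]; exact hk2
  have b4 : |2 * s ^ 3 * (k2 - k1)| ≤ 2 * s ^ 3 * (2 * κ) := by
    rw [abs_mul, abs_of_pos (by positivity : (0:ℝ) < 2 * s ^ 3)]
    have : |k2 - k1| ≤ 2 * κ := (abs_sub _ _).trans (by linarith)
    gcongr
  have hΦ : |(3 * t2 * w2 ^ 2 - w2 ^ 3 + 2 * k2 * s ^ 3) - (3 * t1 * w1 ^ 2 - w1 ^ 3 + 2 * k1 * s ^ 3)|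
      ≤ 48 * (s * T * δ) * ω + 3 * ω ^ 2 * L + 3 * δ * ω ^ 2 + 4 * s ^ 3 * κ := by
    rw [e]
    calc |3 * t2 * (w2 - w1) * (w2 + w1) + 3 * w1 ^ 2 * (t2 - t1) -
        (w2 - w1) * (w2 ^ 2 + w2 * w1 + w1 ^ 2) + 2 * s ^ 3 * (k2 - k1)|
        ≤ |3 * t2 * (w2 - w1) * (w2 + w1)| + |3 * w1 ^ 2 * (t2 - t1)| +
          |(w2 - w1) * (w2 ^ 2 + w2 * w1 + w1 ^ 2)| + |2 * s ^ 3 * (k2 - k1)| := by
          refine (abs_add_le _ _).trans ?_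
          gcongr
          refine (abs_sub _ _).trans ?_
          gcongr
          exact abs_add_le _ _
      _ ≤ 3 * (8 * s * T) * δ * (2 * ω) + 3 * ω ^ 2 * L + δ * (3 * ω ^ 2) + 2 * s ^ 3 * (2 * κ) := by
          linarith
      _ = _ := by ring
  rw [abs_mul]
  have hA0 : 0 ≤ 48 * (s * T * δ) * ω + 3 * ω ^ 2 * L + 3 * δ * ω ^ 2 + 4 * s ^ 3 * κ := by positivity
  have step : |(t2 - w2) - (t1 - w1)| * |(3 * t2 * w2 ^ 2 - w2 ^ 3 + 2 * k2 * s ^ 3) -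
      (3 * t1 * w1 ^ 2 - w1 ^ 3 + 2 * k1 * s ^ 3)| ≤
      (L + δ) * (48 * (s * T * δ) * ω + 3 * ω ^ 2 * L + 3 * δ * ω ^ 2 + 4 * s ^ 3 * κ) :=
    mul_le_mul hn hΦ (abs_nonneg _) (by linarith)
  refine step.trans ?_
  -- now everything in terms of P = ω L and e = δ ω
  have hsq : s * T * δ = s ^ 3 / 400 := by linear_combination (s / 400) * hδ
  have hT1 : (1000 : ℝ) ≤ T := by linarith
  have hδ1 : δ ≤ s ^ 2 / 400000 := by
    have : δ * 400000 ≤ δ * (400 * T) := by gcongr; linarith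
    linarith
  have hs23 : s ^ 2 ≤ s ^ 3 := by nlinarith [sq_nonneg s]
  have he : δ * ω ≤ s ^ 3 / 200000 := by
    have : δ * ω ≤ δ * 2 := by gcongr
    linarith
  obtain ⟨P, hPd⟩ : ∃ P : ℝ, P = ω * L := ⟨_, rfl⟩
  obtain ⟨E, hEd⟩ : ∃ E : ℝ, E = δ * ω := ⟨_, rfl⟩
  have hP0 : 0 ≤ P := by rw [hPd]; positivity
  have hE0 : 0 ≤ E := by rw [hEd]; positivity
  have hPE : P + E ≤ s ^ 3 / 100000 := by rw [hPd, hEd]; linarith [pow_pos hs0 3]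
  have ex : (L + δ) * (48 * (s * T * δ) * ω + 3 * ω ^ 2 * L + 3 * δ * ω ^ 2 + 4 * s ^ 3 * κ) =
      48 * (s ^ 3 / 400) * (P + E) + 3 * (P + E) * (P + E) + (L + δ) * (4 * s ^ 3 * κ) := by
    rw [hsq, hPd, hEd]; ring
  rw [ex]
  have t1' : 48 * (s ^ 3 / 400) * (P + E) ≤ 48 * (s ^ 3 / 400) * (s ^ 3 / 100000) := by gcongr
  have t2' : 3 * (P + E) * (P + E) ≤ 3 * (s ^ 3 / 100000) * (s ^ 3 / 100000) := by gcongr
  have t3' : (L + δ) * (4 * s ^ 3 * κ) ≤ s ^ 6 / 800 := by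
    have hκT : κ * T ^ 2 = c := by rw [hκ]; field_simp
    have h1 : L * (4 * s ^ 3 * κ) ≤ s ^ 6 / 1000 := by
      -- L * 4 κ s^3 * (1000 T) ≤ ... 
      have a1 : L * (4 * s ^ 3 * κ) * 1000 * T ≤ s ^ 3 * s := by
        have : L * (4 * s ^ 3 * κ) * 1000 * T * T = (L * (4000 * c)) * s ^ 3 := by
          rw [← hκT]; ring
        have h2 : L * (4 * s ^ 3 * κ) * 1000 * T * T ≤ (s ^ 3 * s) * T := by
          rw [this]
          calc (L * (4000 * c)) * s ^ 3 ≤ (s * T) * s ^ 3 := by gcongr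
            _ = (s ^ 3 * s) * T := by ring
        exact le_of_mul_le_mul_right h2 hT0
      have a2 : L * (4 * s ^ 3 * κ) * 1000 * s ^ 3 ≤ s ^ 3 * s := by
        refine le_trans ?_ a1
        gcongr
      have a3 : L * (4 * s ^ 3 * κ) * 1000 ≤ s := by
        have : L * (4 * s ^ 3 * κ) * 1000 * s ^ 3 ≤ s * s ^ 3 := by linarith
        exact le_of_mul_le_mul_right this (by positivity)
      have a4 : s ≤ s ^ 6 := le_self_pow₀ hs (by norm_num)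
      linarith
    have h2 : δ * (4 * s ^ 3 * κ) ≤ s ^ 6 / 100000 := by
      have a0 : κ ≤ 1 / 1000 := by
        rw [hκ, div_le_div_iff₀ (by positivity) (by norm_num)]
        nlinarith
      have a1 : δ * (4 * s ^ 3 * κ) ≤ (s ^ 2 / 400000) * (4 * s ^ 3 * (1 / 1000)) := by gcongr
      have a2 : s ^ 5 ≤ s ^ 6 := pow_le_pow_right₀ hs (by norm_num)
      have a3 : (s ^ 2 / 400000) * (4 * s ^ 3 * (1 / 1000)) = s ^ 5 / 100000000 := by ring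
      have a5 : 0 ≤ s ^ 6 := by positivity
      linarith
    have : (L + δ) * (4 * s ^ 3 * κ) = L * (4 * s ^ 3 * κ) + δ * (4 * s ^ 3 * κ) := by ring
    rw [this]
    have a5 : 0 ≤ s ^ 6 := by positivity
    linarith
  have a5 : 0 ≤ s ^ 6 := by positivity
  have t1'' : 48 * (s ^ 3 / 400) * (s ^ 3 / 100000) = s ^ 6 * (48 / 40000000) := by ring
  have t2'' : 3 * (s ^ 3 / 100000) * (s ^ 3 / 100000) = s ^ 6 * (3 / 10000000000) := by ring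
  linarith

end Pool.Agent.LibHallCount
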