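import Pool.Agent.LibHallCount.Alg
import Pool.Agent.LibHallCount.Three
import Pool.Agent.LibHallCount.Win

set_option autoImplicit false

namespace Pool.Agent.LibHallCount

/-- The data attached to a point `(x, y)` with `y ^ 2` close to `x ^ 3`: a fraction `n / s` close to
the square root of `x`. -/
structure Dat (c : ℝ) (M s x : ℕ) (n y : ℤ) : Prop where
  s1 : 1 ≤ s
  sM : s ≤ M
  cop : IsCoprime (s : ℤ) n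
  hw : |(s : ℝ) * √(x : ℝ) - n| * M ≤ 1
  hk : |(y : ℝ) - √(x : ℝ) ^ 3| * ((M : ℝ) ^ 3) ^ 2 ≤ c
  hT1 : (M : ℝ) ^ 3 ≤ √(x : ℝ)
  hT2 : √(x : ℝ) < 8 * (M : ℝ) ^ 3
  hP : n ^ 3 - 3 * x * s ^ 2 * n + 2 * y * s ^ 3 ≠ 0

/-- The coordinate `N`. -/
def cN (s x : ℕ) (n : ℤ) : ℤ := x * s ^ 2 - n ^ 2

/-- The coordinate `Φ`. -/
def cP (s x : ℕ) (n y : ℤ) : ℤ := n ^ 3 - 3 * x * s ^ 2 * n + 2 * y * s ^ 3

/-- The coordinate `Ψ`. -/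
def cQ (s x : ℕ) (n y : ℤ) : ℤ := 3 * cN s x n ^ 2 - 4 * n * cP s x n y

theorem cN_real (s x : ℕ) (n : ℤ) :
    (cN s x n : ℝ) = 2 * (s * √(x : ℝ)) * (s * √(x : ℝ) - n) - (s * √(x : ℝ) - n) ^ 2 := by
  have hx : √(x : ℝ) ^ 2 = x := Real.sq_sqrt (Nat.cast_nonneg x)
  unfold cN
  push_cast
  linear_combination (-(s : ℝ) ^ 2) * hx

theorem cP_real (s x : ℕ) (n y : ℤ) :
    (cP s x n y : ℝ) = 3 * (s * √(x : ℝ)) * (s * √(x : ℝ) - n) ^ 2 - (s * √(x : ℝ) - n) ^ 3 +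
      2 * (y - √(x : ℝ) ^ 3) * s ^ 3 := by
  have hx : √(x : ℝ) ^ 2 = x := Real.sq_sqrt (Nat.cast_nonneg x)
  unfold cP
  push_cast
  linear_combination (3 * (s : ℝ) ^ 2 * n) * hx

theorem pair_zero (c : ℝ) (hc : 1 ≤ c) (M s x1 x2 j : ℕ) (n1 n2 y1 y2 : ℤ)
    (hM : 1000 * c ≤ (M : ℝ) ^ 3) (h1 : Dat c M s x1 n1 y1) (h2 : Dat c M s x2 n2 y2)
    (hdvd : (s : ℤ) ∣ n2 - n1) (hQ : cQ s x1 n1 y1 = cQ s x2 n2 y2)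
    (hj1 : (j : ℝ) * ((s : ℝ) ^ 2 / (400 * (M : ℝ) ^ 3)) ≤ |(s : ℝ) * √(x1 : ℝ) - n1|)
    (hj1' : |(s : ℝ) * √(x1 : ℝ) - n1| ≤ ((j : ℝ) + 1) * ((s : ℝ) ^ 2 / (400 * (M : ℝ) ^ 3)))
    (hj2 : (j : ℝ) * ((s : ℝ) ^ 2 / (400 * (M : ℝ) ^ 3)) ≤ |(s : ℝ) * √(x2 : ℝ) - n2|)
    (hj2' : |(s : ℝ) * √(x2 : ℝ) - n2| ≤ ((j : ℝ) + 1) * ((s : ℝ) ^ 2 / (400 * (M : ℝ) ^ 3)))
    (hsg : (0 ≤ (s : ℝ) * √(x1 : ℝ) - n1 ∧ 0 ≤ (s : ℝ) * √(x2 : ℝ) - n2) ∨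
      ((s : ℝ) * √(x1 : ℝ) - n1 ≤ 0 ∧ (s : ℝ) * √(x2 : ℝ) - n2 ≤ 0))
    (hτ : |(s : ℝ) * √(x2 : ℝ) - s * √(x1 : ℝ)| ≤ s * (M : ℝ) ^ 3 / (4000 * c * (j + 1))) :
    9 * (cN s x2 n2 - cN s x1 n1) ^ 2 - 16 * (n2 - n1) * (cP s x2 n2 y2 - cP s x1 n1 y1) = 0 := by
  have hs1 : (1 : ℝ) ≤ s := by exact_mod_cast h1.s1
  have hs0 : (0 : ℝ) < s := by linarith
  have hM1 : (1 : ℝ) ≤ M := by
    have : 1 ≤ M := h1.s1.trans h1.sM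
    exact_mod_cast this
  have hM0 : (0 : ℝ) < M := by linarith
  have hsM : (s : ℝ) ≤ M := by exact_mod_cast h1.sM
  obtain ⟨T, hT⟩ : ∃ T : ℝ, T = (M : ℝ) ^ 3 := ⟨_, rfl⟩
  have hk1 := h1.hk
  have hk2 := h2.hk
  have hT2' := h2.hT2
  rw [← hT] at hM hj1 hj1' hj2 hj2' hτ hk1 hk2 hT2'
  have hT0 : 0 < T := by linarith
  have hsT : (s : ℝ) ^ 3 ≤ T := by rw [hT]; gcongr
  obtain ⟨δ, hδ⟩ : ∃ δ : ℝ, δ = (s : ℝ) ^ 2 / (400 * T) := ⟨_, rfl⟩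
  rw [← hδ] at hj1 hj1' hj2 hj2'
  have hδe : δ * (400 * T) = (s : ℝ) ^ 2 := by rw [hδ]; field_simp
  have hδ0 : 0 < δ := by rw [hδ]; positivity
  obtain ⟨L, hL⟩ : ∃ L : ℝ, L = s * T / (4000 * c * (j + 1)) := ⟨_, rfl⟩
  rw [← hL] at hτ
  have hj0 : (0 : ℝ) ≤ j := Nat.cast_nonneg j
  have hL0 : 0 ≤ L := by rw [hL]; positivity
  have hLe : L * (4000 * c * (j + 1)) = s * T := by rw [hL]; field_simp
  have hw1 := h1.hw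
  have hδ1 : δ ≤ 1 := by
    rw [hδ, div_le_one (by positivity)]
    have : (s : ℝ) ^ 2 ≤ s ^ 3 := pow_le_pow_right₀ hs1 (by norm_num)
    linarith
  have hω2 : ((j : ℝ) + 1) * δ ≤ 2 := by
    have h3 : |(s : ℝ) * √(x1 : ℝ) - n1| ≤ 1 := by
      have : |(s : ℝ) * √(x1 : ℝ) - n1| * 1 ≤ |(s : ℝ) * √(x1 : ℝ) - n1| * M := by gcongr
      linarith
    linarith
  have hω0 : 0 ≤ ((j : ℝ) + 1) * δ := by positivity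
  have hP : ((j : ℝ) + 1) * δ * L ≤ (s : ℝ) ^ 3 / 1600000 := by
    have h3 : ((j : ℝ) + 1) * δ * L * (1600000 * c) * T = (s : ℝ) ^ 3 * T := by
      linear_combination ((s : ℝ) ^ 2) * hLe + ((j + 1) * L * (4000 * c)) * hδe
    have h4 : ((j : ℝ) + 1) * δ * L * (1600000 * c) = (s : ℝ) ^ 3 := mul_right_cancel₀ hT0.ne' h3
    rw [le_div_iff₀ (by norm_num)]
    have h5 : 0 ≤ ((j : ℝ) + 1) * δ * L := by positivity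
    calc ((j : ℝ) + 1) * δ * L * 1600000 ≤ ((j : ℝ) + 1) * δ * L * (1600000 * c) := by
          gcongr; linarith
      _ = _ := h4
  have hL' : L * (4000 * c) ≤ s * T := by
    rw [← hLe]
    have : 0 ≤ L * (4000 * c) * j := by positivity
    nlinarith
  have ht2 : |(s : ℝ) * √(x2 : ℝ)| ≤ 8 * s * T := by
    rw [abs_of_nonneg (by positivity)]
    nlinarith
  have hww : |((s : ℝ) * √(x2 : ℝ) - n2) - ((s : ℝ) * √(x1 : ℝ) - n1)| ≤ δ := by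
    rw [abs_le]
    rcases hsg with ⟨ha, hb⟩ | ⟨ha, hb⟩
    · rw [abs_of_nonneg ha] at hj1 hj1'
      rw [abs_of_nonneg hb] at hj2 hj2'
      constructor <;> nlinarith
    · rw [abs_of_nonpos ha] at hj1 hj1'
      rw [abs_of_nonpos hb] at hj2 hj2'
      constructor <;> nlinarith
  have bN := win_N s T (((j : ℝ) + 1) * δ) δ L (s * √(x1 : ℝ)) (s * √(x2 : ℝ))
    (s * √(x1 : ℝ) - n1) (s * √(x2 : ℝ) - n2) hs1 hsT (by linarith) hδe hω2 hω0 hL0 hP ht2 hj1' hj2'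
    hww hτ
  have bP := win_P s T c (((j : ℝ) + 1) * δ) δ L (s * √(x1 : ℝ)) (s * √(x2 : ℝ))
    (s * √(x1 : ℝ) - n1) (s * √(x2 : ℝ) - n2) (y1 - √(x1 : ℝ) ^ 3) (y2 - √(x2 : ℝ) ^ 3)
    hs1 hsT hc hM hδe hω2 hω0 hL0 hP hL' ht2 hj1' hj2' hww hτ hk1 hk2
  have hsne : (s : ℤ) ≠ 0 := by
    have := h1.s1
    omega
  have hdv := dvd_disc s n1 n2 x1 x2 y1 y2 hsne h1.cop hdvd hQ
  have hlt : |4 * (9 * (cN s x2 n2 - cN s x1 n1) ^ 2 -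
      16 * (n2 - n1) * (cP s x2 n2 y2 - cP s x1 n1 y1))| < (s : ℤ) ^ 6 := by
    have hr : (|4 * (9 * ((cN s x2 n2 : ℝ) - cN s x1 n1) ^ 2 -
      16 * ((n2 : ℝ) - n1) * (cP s x2 n2 y2 - cP s x1 n1 y1))| : ℝ) < (s : ℝ) ^ 6 := by
      rw [cN_real, cN_real, cP_real, cP_real]
      have e1 : (n2 : ℝ) - n1 = (s * √(x2 : ℝ) - (s * √(x2 : ℝ) - n2)) -
        (s * √(x1 : ℝ) - (s * √(x1 : ℝ) - n1)) := by ring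
      rw [e1]
      obtain ⟨A, hA⟩ : ∃ A : ℝ, A = 2 * (s * √(x2 : ℝ)) * (s * √(x2 : ℝ) - n2) - (s * √(x2 : ℝ) - n2) ^ 2 -
        (2 * (s * √(x1 : ℝ)) * (s * √(x1 : ℝ) - n1) - (s * √(x1 : ℝ) - n1) ^ 2) := ⟨_, rfl⟩
      rw [← hA] at bN ⊢
      have hA2 : A ^ 2 ≤ (s : ℝ) ^ 6 / 361 := by
        have : A ^ 2 = |A| ^ 2 := (sq_abs A).symm
        rw [this]
        calc |A| ^ 2 ≤ ((s : ℝ) ^ 3 / 19) ^ 2 := by gcongr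
          _ = (s : ℝ) ^ 6 / 361 := by ring
      have hA2' : 0 ≤ A ^ 2 := sq_nonneg A
      have hs6 : 0 < (s : ℝ) ^ 6 := by positivity
      rw [abs_le] at bP
      rw [abs_lt]
      constructor <;> linarith [bP.1, bP.2]
    exact_mod_cast hr
  have h0 := Int.eq_zero_of_abs_lt_dvd hdv hlt
  have : (4 : ℤ) * (9 * (cN s x2 n2 - cN s x1 n1) ^ 2 -
      16 * (n2 - n1) * (cP s x2 n2 y2 - cP s x1 n1 y1)) = 0 := h0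
  linarith

/-- The conditions under which two points repel each other. -/
structure Near (c : ℝ) (M s j x1 x2 : ℕ) (n1 n2 y1 y2 : ℤ) : Prop where
  dvd : (s : ℤ) ∣ n2 - n1
  hQ : cQ s x1 n1 y1 = cQ s x2 n2 y2
  hj1 : (j : ℝ) * ((s : ℝ) ^ 2 / (400 * (M : ℝ) ^ 3)) ≤ |(s : ℝ) * √(x1 : ℝ) - n1|
  hj1' : |(s : ℝ) * √(x1 : ℝ) - n1| ≤ ((j : ℝ) + 1) * ((s : ℝ) ^ 2 / (400 * (M : ℝ) ^ 3))
  hj2 : (j : ℝ) * ((s : ℝ) ^ 2 / (400 * (M : ℝ) ^ 3)) ≤ |(s : ℝ) * √(x2 : ℝ) - n2|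
  hj2' : |(s : ℝ) * √(x2 : ℝ) - n2| ≤ ((j : ℝ) + 1) * ((s : ℝ) ^ 2 / (400 * (M : ℝ) ^ 3))
  hsg : (0 ≤ (s : ℝ) * √(x1 : ℝ) - n1 ∧ 0 ≤ (s : ℝ) * √(x2 : ℝ) - n2) ∨
      ((s : ℝ) * √(x1 : ℝ) - n1 ≤ 0 ∧ (s : ℝ) * √(x2 : ℝ) - n2 ≤ 0)
  hτ : |(s : ℝ) * √(x2 : ℝ) - s * √(x1 : ℝ)| ≤ s * (M : ℝ) ^ 3 / (4000 * c * (j + 1))

theorem dat_n_pos {c : ℝ} {M s x : ℕ} {n y : ℤ} (h : Dat c M s x n y) (hM : 2 ≤ M) : 0 < n := by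
  have hs1 : (1 : ℝ) ≤ s := by exact_mod_cast h.s1
  have hM1 : (2 : ℝ) ≤ M := by exact_mod_cast hM
  have h3 : |(s : ℝ) * √(x : ℝ) - n| ≤ 1 := by
    have : |(s : ℝ) * √(x : ℝ) - n| * 1 ≤ |(s : ℝ) * √(x : ℝ) - n| * M := by
      gcongr; linarith
    linarith [h.hw]
  have h4 := (abs_le.1 h3).2
  have h5 : (8 : ℝ) ≤ (M : ℝ) ^ 3 := by
    calc (8 : ℝ) = 2 ^ 3 := by norm_num
      _ ≤ (M : ℝ) ^ 3 := by gcongr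
  have h6 : (8 : ℝ) ≤ s * √(x : ℝ) := by
    calc (8 : ℝ) = 1 * 8 := by norm_num
      _ ≤ s * √(x : ℝ) := by gcongr; linarith [h.hT1]
  have : (0 : ℝ) < n := by linarith
  exact_mod_cast this

/-- Three distinct points can not be pairwise near. -/
theorem three_near (c : ℝ) (hc : 1 ≤ c) (M s x1 x2 x3 j : ℕ) (n1 n2 n3 y1 y2 y3 : ℤ)
    (hM2 : 2 ≤ M) (hM : 1000 * c ≤ (M : ℝ) ^ 3) (h1 : Dat c M s x1 n1 y1) (h2 : Dat c M s x2 n2 y2)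
    (h3 : Dat c M s x3 n3 y3) (h12 : Near c M s j x1 x2 n1 n2 y1 y2)
    (h13 : Near c M s j x1 x3 n1 n3 y1 y3) (h23 : Near c M s j x2 x3 n2 n3 y2 y3)
    (hx12 : x1 ≠ x2) (hx13 : x1 ≠ x3) (hx23 : x2 ≠ x3) : False := by
  have z12 := pair_zero c hc M s x1 x2 j n1 n2 y1 y2 hM h1 h2 h12.dvd h12.hQ h12.hj1 h12.hj1' h12.hj2
    h12.hj2' h12.hsg h12.hτ
  have z13 := pair_zero c hc M s x1 x3 j n1 n3 y1 y3 hM h1 h3 h13.dvd h13.hQ h13.hj1 h13.hj1' h13.hj2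
    h13.hj2' h13.hsg h13.hτ
  have z23 := pair_zero c hc M s x2 x3 j n2 n3 y2 y3 hM h2 h3 h23.dvd h23.hQ h23.hj1 h23.hj1' h23.hj2
    h23.hj2' h23.hsg h23.hτ
  have hs0 : (s : ℤ) ^ 2 ≠ 0 := by
    have := h1.s1
    have : (s : ℤ) ≠ 0 := by omega
    positivity
  have aux : ∀ a b : ℕ, ∀ na nb : ℤ, na = nb → cN s a na = cN s b nb → a = b := by
    intro a b na nb hn hN
    unfold cN at hN
    rw [hn] at hN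
    have : (a : ℤ) * s ^ 2 = b * s ^ 2 := by linarith
    exact_mod_cast mul_right_cancel₀ hs0 this
  refine three_pts n1 (cN s x1 n1) (cP s x1 n1 y1) (n2 - n1) (cN s x2 n2 - cN s x1 n1)
    (cP s x2 n2 y2 - cP s x1 n1 y1) (n3 - n1) (cN s x3 n3 - cN s x1 n1)
    (cP s x3 n3 y3 - cP s x1 n1 y1) (cQ s x1 n1 y1) (dat_n_pos h1 hM2).ne' h1.hP rfl ?_ ?_ z12 z13 ?_
    ?_ ?_ ?_
  · rw [h12.hQ]
    unfold cQ
    ring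
  · rw [h13.hQ]
    unfold cQ
    ring
  · linear_combination z23
  · rintro ⟨ha, hb, -⟩
    exact hx12 (aux _ _ n1 n2 (by linarith) (by linarith))
  · rintro ⟨ha, hb, -⟩
    exact hx13 (aux _ _ n1 n3 (by linarith) (by linarith))
  · rintro ⟨ha, hb, -⟩
    exact hx23 (aux _ _ n2 n3 (by linarith) (by linarith))

end Pool.Agent.LibHallCount
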