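import Pool.Agent.LibHallCount.Fiber
import Pool.Agent.LibHallCount.Exist

set_option autoImplicit false

namespace Pool.Agent.LibHallCount

open Finset

theorem bw_nonneg (a : ℝ) (ha : 0 ≤ a) (j : ℕ) : 0 ≤ bw a j := by
  unfold bw
  split_ifs <;> positivity

theorem sum_bw (a : ℝ) (ha : 1 ≤ a) :
    ∑ j ∈ Finset.range (⌊400 * a ^ 2⌋₊ + 1), (1 + bw a j) ≤ 407 * a ^ 2 := by
  have ha0 : 0 < a := by linarith
  rw [Finset.sum_add_distrib]
  have h1 : ∑ _j ∈ Finset.range (⌊400 * a ^ 2⌋₊ + 1), (1 : ℝ) ≤ 400 * a ^ 2 + 1 := by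
    rw [Finset.sum_const, Finset.card_range, nsmul_eq_mul, mul_one]
    push_cast
    have := Nat.floor_le (by positivity : 0 ≤ 400 * a ^ 2)
    linarith
  have h2 : ∑ j ∈ Finset.range (⌊400 * a ^ 2⌋₊ + 1), bw a j ≤ (a + 1) ^ 2 + 2 * a ^ 2 := by
    rw [← Finset.sum_filter_add_sum_filter_not _ (fun j : ℕ => (j : ℝ) ≤ a)]
    gcongr ?_ + ?_
    · have hc : ((Finset.range (⌊400 * a ^ 2⌋₊ + 1)).filter (fun j : ℕ => (j : ℝ) ≤ a)).card ≤ ⌊a⌋₊ + 1 := by
        rw [← Finset.card_range (⌊a⌋₊ + 1)]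
        apply Finset.card_le_card
        intro j hj
        rw [Finset.mem_filter] at hj
        rw [Finset.mem_range, Nat.lt_succ_iff]
        exact Nat.le_floor hj.2
      have hc' : (((Finset.range (⌊400 * a ^ 2⌋₊ + 1)).filter (fun j : ℕ => (j : ℝ) ≤ a)).card : ℝ) ≤ a + 1 := by
        have h3 : (((Finset.range (⌊400 * a ^ 2⌋₊ + 1)).filter (fun j : ℕ => (j : ℝ) ≤ a)).card : ℝ) ≤
            (⌊a⌋₊ : ℝ) + 1 := by exact_mod_cast hc
        have := Nat.floor_le ha0.le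
        linarith
      calc ∑ j ∈ (Finset.range (⌊400 * a ^ 2⌋₊ + 1)).filter (fun j : ℕ => (j : ℝ) ≤ a), bw a j
          ≤ ∑ _j ∈ (Finset.range (⌊400 * a ^ 2⌋₊ + 1)).filter (fun j : ℕ => (j : ℝ) ≤ a), (a + 1) := by
            apply Finset.sum_le_sum
            intro j hj
            rw [Finset.mem_filter] at hj
            unfold bw
            rw [if_pos hj.2]
            linarith [hj.2]
        _ = (((Finset.range (⌊400 * a ^ 2⌋₊ + 1)).filter (fun j : ℕ => (j : ℝ) ≤ a)).card : ℝ) * (a + 1) := by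
            rw [Finset.sum_const, nsmul_eq_mul]
        _ ≤ (a + 1) * (a + 1) := by gcongr
        _ = (a + 1) ^ 2 := by ring
    · calc ∑ j ∈ (Finset.range (⌊400 * a ^ 2⌋₊ + 1)).filter (fun j : ℕ => ¬ (j : ℝ) ≤ a), bw a j
          ≤ ∑ j ∈ (Finset.range (⌊400 * a ^ 2⌋₊ + 1)).filter (fun j : ℕ => ¬ (j : ℝ) ≤ a),
              a ^ 3 * (((j : ℝ) ^ 2)⁻¹) := by
            apply Finset.sum_le_sum
            intro j hj
            rw [Finset.mem_filter] at hj
            unfold bw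
            rw [if_neg hj.2, div_eq_mul_inv]
        _ ≤ ∑ j ∈ Finset.Ioo ⌊a⌋₊ (⌊400 * a ^ 2⌋₊ + 1), a ^ 3 * (((j : ℝ) ^ 2)⁻¹) := by
            apply Finset.sum_le_sum_of_subset_of_nonneg
            · intro j hj
              rw [Finset.mem_filter, Finset.mem_range] at hj
              rw [Finset.mem_Ioo]
              refine ⟨?_, hj.1⟩
              rw [Nat.floor_lt ha0.le]
              push Not at hj
              exact hj.2
            · intro j _ _
              positivity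
        _ = a ^ 3 * ∑ j ∈ Finset.Ioo ⌊a⌋₊ (⌊400 * a ^ 2⌋₊ + 1), (((j : ℝ) ^ 2)⁻¹) := by
            rw [Finset.mul_sum]
        _ ≤ a ^ 3 * (2 / ((⌊a⌋₊ : ℝ) + 1)) := by
            gcongr
            exact sum_Ioo_inv_sq_le _ _
        _ ≤ a ^ 3 * (2 / a) := by
            gcongr
            exact (Nat.lt_floor_add_one a).le
        _ = 2 * a ^ 2 := by field_simp
  nlinarith

theorem psi_bound (c : ℝ) (hc : 1 ≤ c) (M s x : ℕ) (n y : ℤ) (d : Dat c M s x n y) (hM2 : 2 ≤ M) :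
    |(cQ s x n y : ℝ)| ≤ 105 * c * s := by
  have hs1 : (1 : ℝ) ≤ s := by exact_mod_cast d.s1
  have hs0 : (0 : ℝ) < s := by linarith
  have hM1 : (2 : ℝ) ≤ M := by exact_mod_cast hM2
  have hM0 : (0 : ℝ) < M := by linarith
  have hsM : (s : ℝ) ≤ M := by exact_mod_cast d.sM
  obtain ⟨T, hT⟩ : ∃ T : ℝ, T = (M : ℝ) ^ 3 := ⟨_, rfl⟩
  have hT0 : 0 < T := by rw [hT]; positivity
  have hT1 : 1 ≤ T := by
    rw [hT]
    exact one_le_pow₀ (by linarith)
  have hsT : (s : ℝ) ^ 3 ≤ T := by rw [hT]; gcongr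
  have hk := d.hk
  have ht2 := d.hT2
  rw [← hT] at hk ht2
  obtain ⟨w, hw⟩ : ∃ w : ℝ, w = s * √(x : ℝ) - n := ⟨_, rfl⟩
  obtain ⟨κ, hκ⟩ : ∃ κ : ℝ, κ = y - √(x : ℝ) ^ 3 := ⟨_, rfl⟩
  have hwM := d.hw
  rw [cQ_real, ← hw, ← hκ]
  rw [← hw] at hwM
  rw [← hκ] at hk
  have hw1 : |w| ≤ 1 := by
    have : |w| * 1 ≤ |w| * M := by gcongr; linarith
    linarith
  have hw3 : |w| ^ 3 * T ≤ 1 := by
    rw [hT, ← mul_pow]
    exact pow_le_one₀ (by positivity) hwM
  have ht0 : (0 : ℝ) ≤ s * √(x : ℝ) := by positivity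
  have htb : (s : ℝ) * √(x : ℝ) ≤ 8 * s * T := by nlinarith
  have b1 : |4 * ((s : ℝ) * √(x : ℝ)) * w ^ 3| ≤ 32 * (s : ℝ) := by
    rw [abs_mul, abs_pow, abs_of_nonneg (by positivity : 0 ≤ 4 * ((s : ℝ) * √(x : ℝ)))]
    calc 4 * ((s : ℝ) * √(x : ℝ)) * |w| ^ 3 ≤ 4 * (8 * s * T) * |w| ^ 3 := by gcongr
      _ = 32 * s * (|w| ^ 3 * T) := by ring
      _ ≤ 32 * s * 1 := by gcongr
      _ = 32 * s := by ring
  have b2 : |w ^ 4| ≤ (s : ℝ) := by
    rw [abs_pow]
    exact (pow_le_one₀ (abs_nonneg _) hw1).trans hs1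
  have b3 : |8 * κ * ((s : ℝ) * √(x : ℝ) - w) * (s : ℝ) ^ 3| ≤ 72 * c * s := by
    have h1 : |(s : ℝ) * √(x : ℝ) - w| ≤ 9 * s * T := by
      refine (abs_sub _ _).trans ?_
      rw [abs_of_nonneg ht0]
      have : 1 ≤ (s : ℝ) * T := by nlinarith
      linarith
    rw [abs_mul, abs_mul, abs_mul, abs_of_pos (by norm_num : (0 : ℝ) < 8),
      abs_of_pos (by positivity : (0 : ℝ) < (s : ℝ) ^ 3)]
    have h2 : 8 * |κ| * |(s : ℝ) * √(x : ℝ) - w| * (s : ℝ) ^ 3 * T ≤ 72 * c * s * T := by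
      calc 8 * |κ| * |(s : ℝ) * √(x : ℝ) - w| * (s : ℝ) ^ 3 * T
          ≤ 8 * |κ| * (9 * s * T) * (s : ℝ) ^ 3 * T := by gcongr
        _ = 72 * s * (|κ| * T ^ 2) * (s : ℝ) ^ 3 := by ring
        _ ≤ 72 * s * c * T := by gcongr
        _ = 72 * c * s * T := by ring
    exact le_of_mul_le_mul_right h2 hT0
  calc |4 * ((s : ℝ) * √(x : ℝ)) * w ^ 3 - w ^ 4 - 8 * κ * ((s : ℝ) * √(x : ℝ) - w) * (s : ℝ) ^ 3|
      ≤ |4 * ((s : ℝ) * √(x : ℝ)) * w ^ 3| + |w ^ 4| +
          |8 * κ * ((s : ℝ) * √(x : ℝ) - w) * (s : ℝ) ^ 3| := by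
        refine (abs_sub _ _).trans ?_
        gcongr
        exact abs_sub _ _
    _ ≤ 32 * (s : ℝ) + s + 72 * c * s := by linarith
    _ ≤ 105 * c * s := by nlinarith

/-- The count at one scale. -/
theorem scale_bound (c : ℝ) (hc : 1 ≤ c) (M : ℕ) (hM2 : 2 ≤ M) (hM : 1000 * c ≤ (M : ℝ) ^ 3)
    (E : Finset ℕ) (h1 : ∀ x ∈ E, (M : ℝ) ^ 3 ≤ √(x : ℝ)) (h2 : ∀ x ∈ E, √(x : ℝ) < 8 * (M : ℝ) ^ 3)
    (hE : ∀ x ∈ E, ∃ y : ℤ, y ^ 2 ≠ (x : ℤ) ^ 3 ∧ |((y ^ 2 - (x : ℤ) ^ 3 : ℤ) : ℝ)| ≤ c * √(x : ℝ)) :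
    (E.card : ℝ) ≤ 100000000000000000000 * c ^ 3 * ((M : ℝ) ^ 2 * (1 + Real.log M)) := by
  classical
  have hex : ∀ x, ∃ (s : ℕ) (n y : ℤ), x ∈ E → Dat c M s x n y := by
    intro x
    by_cases hx : x ∈ E
    · obtain ⟨s, n, y, h⟩ := exists_dat c hc M x hM2 hM (h1 x hx) (h2 x hx) (hE x hx)
      exact ⟨s, n, y, fun _ => h⟩
    · exact ⟨0, 0, 0, fun h => absurd h hx⟩
  choose sf nf yf hdat using hex
  have hM1 : (2 : ℝ) ≤ M := by exact_mod_cast hM2
  have hM0 : (0 : ℝ) < M := by linarith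
  have hT0 : (0 : ℝ) < (M : ℝ) ^ 3 := by positivity
  have hc0 : 0 < c := by linarith
  obtain ⟨A, hA⟩ : ∃ A : ℕ, A = ⌈105 * c⌉₊ + 1 := ⟨_, rfl⟩
  -- split according to s
  have hs : E.card = ∑ s ∈ Finset.Icc 1 M, (E.filter (fun x => sf x = s)).card := by
    apply Finset.card_eq_sum_card_fiberwise
    intro x hx
    have := hdat x hx
    rw [Finset.mem_coe, Finset.mem_Icc]
    exact ⟨this.s1, this.sM⟩
  have hfs : ∀ s ∈ Finset.Icc 1 M, ((E.filter (fun x => sf x = s)).card : ℝ) ≤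
      s * (2 * (2 * (A : ℝ) + 1)) * (100000000000000 * c ^ 2 * (407 * ((M : ℝ) / s) ^ 2)) := by
    intro s hs
    rw [Finset.mem_Icc] at hs
    have hs1 : (1 : ℝ) ≤ s := by exact_mod_cast hs.1
    have hs0 : (0 : ℝ) < s := by linarith
    have hs0' : (0 : ℤ) < s := by exact_mod_cast hs.1
    have hsM : (s : ℝ) ≤ M := by exact_mod_cast hs.2
    obtain ⟨a, ha⟩ : ∃ a : ℝ, a = (M : ℝ) / s := ⟨_, rfl⟩
    have ha1 : 1 ≤ a := by rw [ha, le_div_iff₀ hs0]; linarith
    obtain ⟨δ, hδ⟩ : ∃ δ : ℝ, δ = (s : ℝ) ^ 2 / (400 * (M : ℝ) ^ 3) := ⟨_, rfl⟩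
    have hδ0 : 0 < δ := by rw [hδ]; positivity
    -- the key
    let key : ℕ → (ℕ × Bool) × (ℤ × ℕ) := fun x =>
      (((nf x % s).toNat, decide (0 ≤ (s : ℝ) * √(x : ℝ) - nf x)),
        ((cQ s x (nf x) (yf x) + nf x ^ 4 % s) / s, ⌊|(s : ℝ) * √(x : ℝ) - nf x| / δ⌋₊))
    let keys : Finset ((ℕ × Bool) × (ℤ × ℕ)) :=
      (Finset.range s ×ˢ Finset.univ) ×ˢ (Finset.Icc (-(A : ℤ)) A ×ˢ Finset.range (⌊400 * a ^ 2⌋₊ + 1))
    have hdat' : ∀ x ∈ E.filter (fun x => sf x = s), Dat c M s x (nf x) (yf x) := by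
      intro x hx
      rw [Finset.mem_filter] at hx
      have := hdat x hx.1
      rwa [hx.2] at this
    -- congruence for cQ
    have hcong : ∀ x, (s : ℤ) ∣ cQ s x (nf x) (yf x) + nf x ^ 4 % s := by
      intro x
      have e1 : (s : ℤ) ∣ cQ s x (nf x) (yf x) + nf x ^ 4 := by
        refine ⟨s * (3 * x ^ 2 * s ^ 2 - 6 * x * nf x ^ 2 + 12 * x * nf x ^ 2 - 8 * nf x * yf x * s), ?_⟩
        unfold cQ cN cP
        ring
      have e2 : (s : ℤ) ∣ nf x ^ 4 - nf x ^ 4 % s := Int.dvd_self_sub_emod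
      have e3 : cQ s x (nf x) (yf x) + nf x ^ 4 % s =
        (cQ s x (nf x) (yf x) + nf x ^ 4) - (nf x ^ 4 - nf x ^ 4 % s) := by ring
      rw [e3]
      exact dvd_sub e1 e2
    have hmaps : Set.MapsTo key (E.filter (fun x => sf x = s) : Set ℕ) keys := by
      intro x hx
      rw [Finset.mem_coe] at hx
      have d := hdat' x hx
      rw [Finset.mem_coe]
      simp only [keys, key, Finset.mem_product, Finset.mem_range, Finset.mem_univ, and_true,
        Finset.mem_Icc]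
      refine ⟨?_, ⟨?_, ?_⟩, ?_⟩
      · have p1 := Int.emod_nonneg (nf x) hs0'.ne'
        have p2 := Int.emod_lt_of_pos (nf x) hs0'
        omega
      · apply Int.le_ediv_of_mul_le hs0'
        have b1 := (abs_le.1 (psi_bound c hc M s x (nf x) (yf x) d hM2)).1
        have b2 : -((A : ℝ) * s) ≤ (cQ s x (nf x) (yf x) : ℝ) := by
          have : 105 * c * s ≤ A * s := by
            gcongr
            rw [hA]
            push_cast
            linarith [Nat.le_ceil (105 * c)]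
          linarith
        have b3 : -((A : ℤ) * s) ≤ cQ s x (nf x) (yf x) := by exact_mod_cast b2
        have p1 := Int.emod_nonneg (nf x ^ 4) hs0'.ne'
        linarith
      · apply Int.ediv_le_of_le_mul hs0'
        have b1 := (abs_le.1 (psi_bound c hc M s x (nf x) (yf x) d hM2)).2
        have b2 : (cQ s x (nf x) (yf x) : ℝ) ≤ ((A : ℝ) - 1) * s := by
          have : 105 * c * s ≤ ((A : ℝ) - 1) * s := by
            gcongr
            rw [hA]
            push_cast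
            linarith [Nat.le_ceil (105 * c)]
          linarith
        have b3 : cQ s x (nf x) (yf x) ≤ ((A : ℤ) - 1) * s := by exact_mod_cast b2
        have p1 := Int.emod_lt_of_pos (nf x ^ 4) hs0'
        linarith
      · rw [Nat.lt_succ_iff]
        apply Nat.floor_mono
        rw [div_le_iff₀ hδ0, ha, hδ]
        have := d.hw
        have e1 : 400 * ((M : ℝ) / s) ^ 2 * ((s : ℝ) ^ 2 / (400 * (M : ℝ) ^ 3)) = 1 / M := by
          field_simp
        rw [e1, le_div_iff₀ hM0]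
        exact this
    have hfib : ∀ k ∈ keys, ((((E.filter (fun x => sf x = s)).filter (fun x => key x = k)).card : ℕ) : ℝ) ≤
        100000000000000 * c ^ 2 * (1 + bw a k.2.2) := by
      intro k hk
      rw [ha]
      refine fib_bound (n := nf) (y := yf) hc ?_ hM2 hM
      have hkey : ∀ x ∈ (E.filter (fun x => sf x = s)).filter (fun x => key x = k), key x = k := by
        intro x hx
        exact (Finset.mem_filter.1 hx).2
      have hin : ∀ x ∈ (E.filter (fun x => sf x = s)).filter (fun x => key x = k),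
          x ∈ E.filter (fun x => sf x = s) := fun x hx => (Finset.mem_filter.1 hx).1
      have hmod : ∀ x ∈ (E.filter (fun x => sf x = s)).filter (fun x => key x = k),
          ∀ x' ∈ (E.filter (fun x => sf x = s)).filter (fun x => key x = k), nf x % s = nf x' % s := by
        intro x hx x' hx'
        have e1 : (nf x % s).toNat = (nf x' % s).toNat := by
          have h3 : (key x).1.1 = (key x').1.1 := by rw [hkey x hx, hkey x' hx']
          exact h3
        have p1 := Int.emod_nonneg (nf x) hs0'.ne'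
        have p2 := Int.emod_nonneg (nf x') hs0'.ne'
        omega
      refine ⟨fun x hx => hdat' x (hin x hx), ?_, ?_, ?_, ?_, ?_⟩
      · intro x hx x' hx'
        exact Int.ModEq.dvd (hmod x hx x' hx')
      · intro x hx x' hx'
        have e1 : (cQ s x (nf x) (yf x) + nf x ^ 4 % s) / s =
            (cQ s x' (nf x') (yf x') + nf x' ^ 4 % s) / s := by
          have h3 : (key x).2.1 = (key x').2.1 := by rw [hkey x hx, hkey x' hx']
          exact h3
        have e2 : nf x ^ 4 % s = nf x' ^ 4 % s := Int.ModEq.pow 4 (hmod x hx x' hx')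
        have e3 := Int.ediv_mul_cancel (hcong x)
        have e4 := Int.ediv_mul_cancel (hcong x')
        rw [e1, e4, e2] at e3
        linarith
      · intro x hx
        have e1 : ⌊|(s : ℝ) * √(x : ℝ) - nf x| / δ⌋₊ = k.2.2 := by
          have h3 : (key x).2.2 = k.2.2 := by rw [hkey x hx]
          exact h3
        rw [← hδ, ← e1, ← le_div_iff₀ hδ0]
        exact Nat.floor_le (by positivity)
      · intro x hx
        have e1 : ⌊|(s : ℝ) * √(x : ℝ) - nf x| / δ⌋₊ = k.2.2 := by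
          have h3 : (key x).2.2 = k.2.2 := by rw [hkey x hx]
          exact h3
        rw [← hδ, ← e1, ← div_le_iff₀ hδ0]
        exact (Nat.lt_floor_add_one _).le
      · cases hb : k.1.2
        · right
          intro x hx
          have h3 : (key x).1.2 = k.1.2 := by rw [hkey x hx]
          rw [hb] at h3
          have h4 : decide (0 ≤ (s : ℝ) * √(x : ℝ) - nf x) = false := h3
          have h5 := of_decide_eq_false h4
          linarith
        · left
          intro x hx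
          have h3 : (key x).1.2 = k.1.2 := by rw [hkey x hx]
          rw [hb] at h3
          have h4 : decide (0 ≤ (s : ℝ) * √(x : ℝ) - nf x) = true := h3
          exact of_decide_eq_true h4
    rw [Finset.card_eq_sum_card_fiberwise hmaps]
    push_cast
    calc ∑ k ∈ keys, ((((E.filter (fun x => sf x = s)).filter (fun x => key x = k)).card : ℕ) : ℝ)
        ≤ ∑ k ∈ keys, 100000000000000 * c ^ 2 * (1 + bw a k.2.2) := Finset.sum_le_sum hfib
      _ = ∑ _k ∈ (Finset.range s ×ˢ (Finset.univ : Finset Bool)), ∑ _l ∈ Finset.Icc (-(A : ℤ)) A,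
          ∑ j ∈ Finset.range (⌊400 * a ^ 2⌋₊ + 1), 100000000000000 * c ^ 2 * (1 + bw a j) := by
          simp only [keys, Finset.sum_product]
      _ = (s * 2) * ((2 * A + 1) * (100000000000000 * c ^ 2 *
            ∑ j ∈ Finset.range (⌊400 * a ^ 2⌋₊ + 1), (1 + bw a j))) := by
          rw [Finset.sum_const, Finset.sum_const, Finset.card_product, Finset.card_range,
            Finset.card_univ, Fintype.card_bool, Int.card_Icc, ← Finset.mul_sum, nsmul_eq_mul,
            nsmul_eq_mul]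
          have : ((A : ℤ) + 1 - -(A : ℤ)).toNat = 2 * A + 1 := by omega
          rw [this]
          push_cast
          ring
      _ ≤ (s * 2) * ((2 * A + 1) * (100000000000000 * c ^ 2 * (407 * a ^ 2))) := by
          gcongr
          exact sum_bw a ha1
      _ = _ := by rw [ha]; ring
  have hA' : 2 * (A : ℝ) + 1 ≤ 215 * c := by
    rw [hA]
    push_cast
    have := Nat.ceil_lt_add_one (by positivity : 0 ≤ 105 * c)
    linarith
  have hharm : ∑ s ∈ Finset.Icc 1 M, ((s : ℝ))⁻¹ ≤ 1 + Real.log M := by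
    have := harmonic_le_one_add_log M
    rw [harmonic_eq_sum_Icc] at this
    push_cast at this
    exact this
  rw [hs]
  push_cast
  calc ∑ s ∈ Finset.Icc 1 M, ((E.filter (fun x => sf x = s)).card : ℝ)
      ≤ ∑ s ∈ Finset.Icc 1 M, (2 * (2 * (A : ℝ) + 1)) * (40700000000000000 * c ^ 2 * (M : ℝ) ^ 2) *
          ((s : ℝ))⁻¹ := by
        apply Finset.sum_le_sum
        intro s hs'
        refine (hfs s hs').trans (le_of_eq ?_)
        rw [Finset.mem_Icc] at hs'
        have hs0 : (s : ℝ) ≠ 0 := by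
          have : s ≠ 0 := by omega
          exact_mod_cast this
        field_simp
        ring
    _ = (2 * (2 * (A : ℝ) + 1)) * (40700000000000000 * c ^ 2 * (M : ℝ) ^ 2) *
          ∑ s ∈ Finset.Icc 1 M, ((s : ℝ))⁻¹ := by rw [Finset.mul_sum]
    _ ≤ (2 * (215 * c)) * (40700000000000000 * c ^ 2 * (M : ℝ) ^ 2) * (1 + Real.log M) := by
        have hl : 0 ≤ ∑ s ∈ Finset.Icc 1 M, ((s : ℝ))⁻¹ := Finset.sum_nonneg fun s _ => by positivity
        gcongr
    _ = 17501000000000000000 * c ^ 3 * ((M : ℝ) ^ 2 * (1 + Real.log M)) := by ring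
    _ ≤ 100000000000000000000 * c ^ 3 * ((M : ℝ) ^ 2 * (1 + Real.log M)) := by
        have : 0 ≤ Real.log M := Real.log_nonneg (by linarith)
        gcongr
        norm_num

end Pool.Agent.LibHallCount
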